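import Pool.Graph.R_pool_sql_team_seeded_2aa45f1a.Q177.EF.Seg

/-!
# The vorticity observed by a matrix field

For a field `G(t, x)` of `n × 3` matrices the observed vorticity `G ω` changes along the flow with
the rate `(DG/Dt + G ∇u) ω`.
-/

set_option autoImplicit false

open MeasureTheory Set Filter
open scoped ENNReal NNReal Topology

namespace Pool.Agent.Helper29.Vis

open Pool.Agent.H708R2.EulerSign Pool.Agent.H708R2.EulerTypeI Pool.Agent.W786.Max

/-- The Euclidean norm on `ℝⁿ`. -/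
noncomputable def nr {n : ℕ} (y : Fin n → ℝ) : ℝ := Real.sqrt (y ⬝ᵥ y)

/-- `G` is a continuously differentiable field of `n × 3` matrices on `(0, T) × ℝ³`, periodic in
`x`. -/
structure IsField {n : ℕ} (T : ℝ) (G : ℝ → V → Matrix (Fin n) (Fin 3) ℝ) : Prop where
  c1 : ∀ i j, ContDiffOn ℝ 1 (fun z : ℝ × V => G z.1 z.2 i j) (Ioo 0 T ×ˢ univ)
  per : ∀ t ∈ Ioo 0 T, Periodic3 (G t)

/-- The observed vorticity `G ω`. -/
noncomputable def obs {n : ℕ} (u : ℝ → V → V) (G : ℝ → V → Matrix (Fin n) (Fin 3) ℝ) (t : ℝ)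
    (x : V) : Fin n → ℝ := (G t x).mulVec (vort (u t) x)

/-- The material derivative `∂ₜG + (u · ∇) G`. -/
noncomputable def matD {n : ℕ} (u : ℝ → V → V) (G : ℝ → V → Matrix (Fin n) (Fin 3) ℝ) (t : ℝ)
    (x : V) : Matrix (Fin n) (Fin 3) ℝ :=
  Matrix.of fun i j => deriv (fun s => G s x i j) t + fderiv ℝ (fun y => G t y i j) x (u t x)

/-- The rate of change `(∂ₜG + (u · ∇) G + G ∇u) ω` of the observed vorticity along the flow. -/
noncomputable def rate {n : ℕ} (u : ℝ → V → V) (G : ℝ → V → Matrix (Fin n) (Fin 3) ℝ) (t : ℝ)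
    (x : V) : Fin n → ℝ := (matD u G t x + G t x * grad (u t) x).mulVec (vort (u t) x)

variable {T : ℝ} {u : ℝ → V → V} {p : ℝ → V → ℝ} {n : ℕ}
  {G : ℝ → V → Matrix (Fin n) (Fin 3) ℝ}

lemma nr_nonneg (y : Fin n → ℝ) : 0 ≤ nr y := Real.sqrt_nonneg _

lemma dot_nonneg' (y : Fin n → ℝ) : 0 ≤ y ⬝ᵥ y := by
  simp only [dotProduct]
  exact Finset.sum_nonneg fun i _ => mul_self_nonneg _

lemma nr_sq (y : Fin n → ℝ) : nr y ^ 2 = y ⬝ᵥ y := Real.sq_sqrt (dot_nonneg' y)

lemma nr_eq (y : Fin n → ℝ) : nr y = ‖(WithLp.toLp 2 y : EuclideanSpace ℝ (Fin n))‖ := by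
  rw [EuclideanSpace.norm_eq]
  unfold nr
  congr 1
  simp [dotProduct, sq]

lemma matD_eq (hG : IsField T G) {z : ℝ × V} (hz : z ∈ Om T) (i : Fin n) (j : Fin 3) :
    matD u G z.1 z.2 i j
      = fderiv ℝ (fun z : ℝ × V => G z.1 z.2 i j) z (1, u z.1 z.2) := by
  obtain ⟨t, x⟩ := z
  have hd : DifferentiableAt ℝ (fun z : ℝ × V => G z.1 z.2 i j) (t, x) :=
    ((hG.c1 i j).contDiffAt (isOpen_Om.mem_nhds hz)).differentiableAt (by norm_num)
  have h2 : HasDerivAt (fun s => G s x i j)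
      (fderiv ℝ (fun z : ℝ × V => G z.1 z.2 i j) (t, x) (1, 0)) t :=
    HasFDerivAt.comp_hasDerivAt (l := fun z : ℝ × V => G z.1 z.2 i j)
      (f := fun s : ℝ => ((s, x) : ℝ × V)) t hd.hasFDerivAt
      ((hasDerivAt_id t).prodMk (hasDerivAt_const t x))
  have h3 := slice_fderiv (f := fun t y => G t y i j) (t := t) (x := x) hd (u t x)
  have h4 : ((1, u t x) : ℝ × V) = (1, 0) + (0, u t x) := by simp
  show deriv (fun s => G s x i j) t + fderiv ℝ (fun y => G t y i j) x (u t x) = _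
  rw [h2.deriv, h3]
  simp only
  rw [h4, map_add]

/-- The derivative of the observed vorticity along a trajectory. -/
lemma obs_deriv (h : IsC2Solution T u p) (hG : IsField T G) {X : ℝ → V} {a b : ℝ}
    (hX : IsTraj u X a b) (hab : Icc a b ⊆ Ioo 0 T) {t : ℝ} (ht : t ∈ Icc a b) :
    HasDerivWithinAt (fun t => obs u G t (X t)) (rate u G t (X t)) (Icc a b) t := by
  have hz : (t, X t) ∈ Om T := mem_Om (hab ht) _
  have hZ : HasDerivWithinAt (fun t => ((t, X t) : ℝ × V)) (1, u t (X t)) (Icc a b) t :=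
    (hasDerivWithinAt_id t _).prodMk (hX t ht)
  have hv := fun j => hasDerivWithinAt_pi.1 (vort_deriv h hX hab ht) j
  have hg : ∀ i j, HasDerivWithinAt (fun t => G t (X t) i j) (matD u G t (X t) i j)
      (Icc a b) t := by
    intro i j
    have hd : DifferentiableAt ℝ (fun z : ℝ × V => G z.1 z.2 i j) (t, X t) :=
      ((hG.c1 i j).contDiffAt (isOpen_Om.mem_nhds hz)).differentiableAt (by norm_num)
    have h1 := hd.hasFDerivAt.comp_hasDerivWithinAt t hZ
    have h2 := matD_eq (u := u) hG hz i j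
    simp only at h2
    rw [h2]
    exact h1
  rw [hasDerivWithinAt_pi]
  intro i
  have h1 : HasDerivWithinAt (fun t => ∑ j, G t (X t) i j * vort (u t) (X t) j)
      (∑ j, (matD u G t (X t) i j * vort (u t) (X t) j + G t (X t) i j
        * (grad (u t) (X t)).mulVec (vort (u t) (X t)) j)) (Icc a b) t :=
    HasDerivWithinAt.fun_sum fun j _ => (hg i j).mul (hv j)
  refine h1.congr_deriv ?_
  simp only [rate, Matrix.add_mulVec, ← Matrix.mulVec_mulVec, Pi.add_apply]
  simp only [Matrix.mulVec, dotProduct, Finset.sum_add_distrib]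

lemma toLp_deriv {y : ℝ → Fin n → ℝ} {y' : Fin n → ℝ} {s : Set ℝ} {t : ℝ}
    (h : HasDerivWithinAt y y' s t) :
    HasDerivWithinAt (fun t => (WithLp.toLp 2 (y t) : EuclideanSpace ℝ (Fin n)))
      (WithLp.toLp 2 y') s t := by
  have := ((PiLp.continuousLinearEquiv 2 ℝ (fun _ : Fin n => ℝ)).symm :
    (Fin n → ℝ) →L[ℝ] EuclideanSpace ℝ (Fin n)).hasFDerivAt (x := y t)
  exact this.comp_hasDerivWithinAt t h

/-! ### Continuity, periodicity and bounds -/

lemma vort_contOn (h : IsC2Solution T u p) (i : Fin 3) :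
    ContinuousOn (fun z : ℝ × V => vort (u z.1) z.2 i) (Om T) := by
  have hg : ∀ i j, ContinuousOn (fun z : ℝ × V => grad (u z.1) z.2 i j) (Om T) := fun i j =>
    (grad_continuousOn h.sol i j).mono (prod_mono Ioo_subset_Ico_self subset_rfl)
  fin_cases i
  · exact (hg 2 1).sub (hg 1 2)
  · exact (hg 0 2).sub (hg 2 0)
  · exact (hg 1 0).sub (hg 0 1)

lemma obs_contOn (h : IsC2Solution T u p) (hG : IsField T G) (i : Fin n) :
    ContinuousOn (fun z : ℝ × V => obs u G z.1 z.2 i) (Om T) := by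
  have : (fun z : ℝ × V => obs u G z.1 z.2 i)
      = fun z => ∑ j, G z.1 z.2 i j * vort (u z.1) z.2 j := rfl
  rw [this]
  exact continuousOn_finsetSum _ fun j _ =>
    (hG.c1 i j).continuousOn.mul (vort_contOn h j)

lemma matD_contOn (h : IsC2Solution T u p) (hG : IsField T G) (i : Fin n) (j : Fin 3) :
    ContinuousOn (fun z : ℝ × V => matD u G z.1 z.2 i j) (Om T) := by
  have h1 : ContinuousOn (fderiv ℝ (fun z : ℝ × V => G z.1 z.2 i j)) (Om T) :=
    (hG.c1 i j).continuousOn_fderiv_of_isOpen isOpen_Om (by norm_num)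
  have h2 : ContinuousOn (fun z : ℝ × V => u z.1 z.2) (Om T) := h.u2.continuousOn
  have h3 : ContinuousOn (fun z : ℝ × V => ((1, u z.1 z.2) : ℝ × V)) (Om T) :=
    continuousOn_const.prodMk h2
  exact (h1.clm_apply h3).congr fun z hz => matD_eq hG hz i j

lemma rate_contOn (h : IsC2Solution T u p) (hG : IsField T G) (i : Fin n) :
    ContinuousOn (fun z : ℝ × V => rate u G z.1 z.2 i) (Om T) := by
  have hg : ∀ i j, ContinuousOn (fun z : ℝ × V => grad (u z.1) z.2 i j) (Om T) := fun i j =>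
    (grad_continuousOn h.sol i j).mono (prod_mono Ioo_subset_Ico_self subset_rfl)
  have : (fun z : ℝ × V => rate u G z.1 z.2 i)
      = fun z => ∑ j, (matD u G z.1 z.2 i j + ∑ k, G z.1 z.2 i k * grad (u z.1) z.2 k j)
          * vort (u z.1) z.2 j := by
    funext z
    simp [rate, Matrix.mulVec, dotProduct, Matrix.mul_apply]
  rw [this]
  refine continuousOn_finsetSum _ fun j _ => ((matD_contOn h hG i j).add ?_).mul (vort_contOn h j)
  exact continuousOn_finsetSum _ fun k _ => (hG.c1 i k).continuousOn.mul (hg k j)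

lemma vort_periodic (h : IsC2Solution T u p) {t : ℝ} (ht : t ∈ Ioo 0 T) :
    Periodic3 (vort (u t)) := by
  intro k x
  have h1 : grad (u t) (x + Pi.single k (2 * Real.pi)) = grad (u t) x :=
    (h.sol.periodic_u t ⟨ht.1.le, ht.2⟩).grad k x
  unfold vort
  rw [h1]

lemma obs_periodic (h : IsC2Solution T u p) (hG : IsField T G) {t : ℝ} (ht : t ∈ Ioo 0 T) :
    Periodic3 (obs u G t) := by
  intro k x
  unfold obs
  rw [hG.per t ht k x, vort_periodic h ht k x]

lemma matD_periodic (h : IsC2Solution T u p) (hG : IsField T G) {t : ℝ} (ht : t ∈ Ioo 0 T) :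
    Periodic3 (matD u G t) := by
  intro k x
  ext i j
  have e1 : deriv (fun s => G s (x + Pi.single k (2 * Real.pi)) i j) t
      = deriv (fun s => G s x i j) t := by
    refine Filter.EventuallyEq.deriv_eq ?_
    filter_upwards [Ioo_mem_nhds ht.1 ht.2] with s hs
    rw [hG.per s hs k x]
  have e2 : fderiv ℝ (fun y => G t y i j) (x + Pi.single k (2 * Real.pi))
      = fderiv ℝ (fun y => G t y i j) x := by
    have h1 : (fun y => G t (y + Pi.single k (2 * Real.pi)) i j) = fun y => G t y i j := by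
      funext y
      rw [hG.per t ht k y]
    have h2 := fderiv_comp_add_right (𝕜 := ℝ) (f := fun y => G t y i j) (x := x)
      (Pi.single k (2 * Real.pi))
    rw [← h2, h1]
  have e3 : u t (x + Pi.single k (2 * Real.pi)) = u t x :=
    h.sol.periodic_u t ⟨ht.1.le, ht.2⟩ k x
  show deriv (fun s => G s (x + Pi.single k (2 * Real.pi)) i j) t
    + fderiv ℝ (fun y => G t y i j) (x + Pi.single k (2 * Real.pi))
      (u t (x + Pi.single k (2 * Real.pi))) = deriv (fun s => G s x i j) t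
    + fderiv ℝ (fun y => G t y i j) x (u t x)
  rw [e1, e2, e3]

lemma rate_periodic (h : IsC2Solution T u p) (hG : IsField T G) {t : ℝ} (ht : t ∈ Ioo 0 T) :
    Periodic3 (rate u G t) := by
  intro k x
  have h1 : grad (u t) (x + Pi.single k (2 * Real.pi)) = grad (u t) x :=
    (h.sol.periodic_u t ⟨ht.1.le, ht.2⟩).grad k x
  unfold rate
  rw [hG.per t ht k x, vort_periodic h ht k x, matD_periodic h hG ht k x, h1]

lemma nr_le_sum (y : Fin n → ℝ) : nr y ≤ ∑ i, |y i| := by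
  unfold nr
  refine Real.sqrt_le_iff.2 ⟨Finset.sum_nonneg fun i _ => abs_nonneg _, ?_⟩
  simp only [dotProduct]
  have h1 : ∀ i ∈ Finset.univ, y i * y i ≤ |y i| * ∑ j, |y j| := by
    intro i _
    have h2 : |y i| ≤ ∑ j, |y j| :=
      Finset.single_le_sum (f := fun j => |y j|) (fun j _ => abs_nonneg _) (Finset.mem_univ i)
    rw [← abs_mul_abs_self (y i)]
    exact mul_le_mul_of_nonneg_left h2 (abs_nonneg _)
  calc ∑ i, y i * y i ≤ ∑ i, |y i| * ∑ j, |y j| := Finset.sum_le_sum h1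
    _ = (∑ i, |y i|) ^ 2 := by rw [← Finset.sum_mul, sq]

/-- A continuous periodic field is bounded on compact time intervals. -/
lemma nr_bound {f : ℝ → V → Fin n → ℝ} {a b : ℝ} (ha : 0 < a) (hb : b < T)
    (hf : ∀ i, ContinuousOn (fun z : ℝ × V => f z.1 z.2 i) (Om T))
    (hp : ∀ t ∈ Ioo 0 T, Periodic3 (f t)) :
    ∃ C : ℝ, 0 ≤ C ∧ ∀ t ∈ Icc a b, ∀ x, nr (f t x) ≤ C := by
  have hsub : Icc a b ⊆ Ioo 0 T := fun t ht => ⟨ha.trans_le ht.1, ht.2.trans_lt hb⟩
  have : ∀ i, ∃ C : ℝ, 0 ≤ C ∧ ∀ t ∈ Icc a b, ∀ x, ‖f t x i‖ ≤ C := fun i =>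
    bound_on_slab (f := fun t x => f t x i) ((hf i).mono (prod_mono hsub subset_rfl))
      (fun t ht k x => by
        show f t (x + _) i = f t x i
        rw [hp t (hsub ht) k x])
  choose C hC0 hC using this
  refine ⟨∑ i, C i, Finset.sum_nonneg fun i _ => hC0 i, fun t ht x => (nr_le_sum _).trans ?_⟩
  exact Finset.sum_le_sum fun i _ => hC i t ht x

/-! ### The maximum of the observed vorticity -/

/-- The maximum over space of the size of the observed vorticity. -/
noncomputable def Ymax (u : ℝ → V → V) (G : ℝ → V → Matrix (Fin n) (Fin 3) ℝ) (t : ℝ) : ℝ :=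
  ⨆ x, nr (obs u G t x)

lemma Ymax_nonneg (t : ℝ) : 0 ≤ Ymax u G t := Real.iSup_nonneg fun _ => nr_nonneg _

lemma Ybdd (h : IsC2Solution T u p) (hG : IsField T G) {t : ℝ} (ht : t ∈ Ioo 0 T) :
    BddAbove (range fun x => nr (obs u G t x)) := by
  obtain ⟨C, hC0, hC⟩ := nr_bound (f := fun t x => obs u G t x) ht.1 ht.2
    (fun i => obs_contOn h hG i) (fun _ ht => obs_periodic h hG ht)
  refine ⟨C, ?_⟩
  rintro _ ⟨x, rfl⟩
  exact hC t ⟨le_rfl, le_rfl⟩ x

lemma le_Ymax (h : IsC2Solution T u p) (hG : IsField T G) {t : ℝ} (ht : t ∈ Ioo 0 T) (x : V) :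
    nr (obs u G t x) ≤ Ymax u G t := le_ciSup (Ybdd h hG ht) x

lemma Ymax_eq (h : IsC2Solution T u p) (hG : IsField T G) {t : ℝ} (ht : t ∈ Ioo 0 T) {x : V}
    (hx : ∀ y, nr (obs u G t y) ≤ nr (obs u G t x)) : Ymax u G t = nr (obs u G t x) :=
  le_antisymm (ciSup_le hx) (le_Ymax h hG ht x)

/-- Bounded upward increments. -/
lemma Ymax_incr (h : IsC2Solution T u p) (hG : IsField T G) {a b : ℝ} (ha : 0 < a) (hb : b < T) :
    ∃ C : ℝ, 0 ≤ C ∧ ∀ s ∈ Icc a b, ∀ t ∈ Icc a b, s ≤ t →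
      Ymax u G t ≤ Ymax u G s + C * (t - s) := by
  obtain ⟨C, hC0, hC⟩ := nr_bound (f := fun t x => rate u G t x) ha hb
    (fun i => rate_contOn h hG i) (fun t ht => rate_periodic h hG ht)
  refine ⟨C, hC0, fun s hs t ht hst => ciSup_le fun x => ?_⟩
  have htT : t < T := ht.2.trans_lt hb
  have hs0 : 0 < s := ha.trans_le hs.1
  have hsub : Icc s t ⊆ Ioo 0 T := fun r hr => ⟨hs0.trans_le hr.1, hr.2.trans_lt htT⟩
  obtain ⟨X, hX, hXx⟩ := exists_traj h.sol hs0.le hst htT x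
  have h1 := norm_image_sub_le_of_norm_deriv_le_segment'
    (f := fun r => (WithLp.toLp 2 (obs u G r (X r)) : EuclideanSpace ℝ (Fin n)))
    (f' := fun r => WithLp.toLp 2 (rate u G r (X r))) (C := C)
    (fun r hr => toLp_deriv (obs_deriv h hG hX hsub hr))
    (fun r hr => by
      rw [← nr_eq]
      exact hC r ⟨hs.1.trans hr.1, hr.2.le.trans ht.2⟩ _) t ⟨hst, le_rfl⟩
  have h2 := norm_sub_norm_le (WithLp.toLp 2 (obs u G t (X t)) : EuclideanSpace ℝ (Fin n))
    (WithLp.toLp 2 (obs u G s (X s)))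
  rw [← nr_eq, ← nr_eq, hXx] at h2
  rw [hXx] at h1
  have h3 := le_Ymax h hG ⟨hs0, hst.trans_lt htT⟩ (X s)
  linarith

end Pool.Agent.Helper29.Vis
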