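import Pool.Agent.Helper29.Vis.Segm
import Pool.Graph.R_seed8.H708R2.EulerTypeI.Sharp

/-!
# Examples of observers, and sharpness
-/

set_option autoImplicit false

open MeasureTheory Set Filter
open scoped ENNReal NNReal Topology

namespace Pool.Agent.Helper29.Vis

open Pool.Agent.H708R2.EulerSign Pool.Agent.H708R2.EulerTypeI Pool.Agent.W786.Max

variable {T : ℝ} {u : ℝ → V → V} {p : ℝ → V → ℝ}

/-- A covector field as a field of `1 × 3` matrices. -/
def row (g : ℝ → V → V) : ℝ → V → Matrix (Fin 1) (Fin 3) ℝ := fun t x => Matrix.of fun _ j => g t x j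

/-- The observer `G = uᵀ`: the observed vorticity is the helicity density `u · ω`, and its rate is
`ω · ∇(|u|²/2 - p)`. -/
lemma rate_velocity (h : IsC2Solution T u p) {t : ℝ} (ht : t ∈ Ioo 0 T) (x : V) :
    rate u (row u) t x 0
      = fderiv ℝ (fun y => (u t y ⬝ᵥ u t y) / 2 - p t y) x (vort (u t) x) := by
  have hz : (t, x) ∈ Om T := mem_Om ht x
  have htI : t ∈ Ico 0 T := ⟨ht.1.le, ht.2⟩
  have hU : DifferentiableAt ℝ (u t) x := (slice_hasFDerivAt (f := u) (h.du hz)).differentiableAt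
  have hP : DifferentiableAt ℝ (p t) x := (slice_hasFDerivAt (f := p) (h.dp hz)).differentiableAt
  have hc : ∀ j : Fin 3, HasFDerivAt (fun y => u t y j)
      ((ContinuousLinearMap.proj j : V →L[ℝ] ℝ) ∘L fderiv ℝ (u t) x) x := fun j =>
    (ContinuousLinearMap.proj j : V →L[ℝ] ℝ).hasFDerivAt.comp x hU.hasFDerivAt
  have hm : ∀ j : Fin 3, matD u (row u) t x 0 j = -fderiv ℝ (p t) x (Pi.single j 1) := by
    intro j
    have h1 := h.sol.momentum t htI x j
    rw [derivWithin_of_mem_nhds (Ico_mem_nhds ht.1 ht.2), sum_mul_clm] at h1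
    rw [← h1]
    show deriv (fun s => u s x j) t + fderiv ℝ (fun y => u t y j) x (u t x) = _
    rw [(hc j).fderiv]
    rfl
  have hd : HasFDerivAt (fun y => (u t y ⬝ᵥ u t y) / 2 - p t y)
      ((∑ j : Fin 3, u t x j • ((ContinuousLinearMap.proj j : V →L[ℝ] ℝ) ∘L fderiv ℝ (u t) x))
        - fderiv ℝ (p t) x) x := by
    have h1 : HasFDerivAt (fun y => (1 / 2 : ℝ) * ∑ j : Fin 3, u t y j * u t y j) _ x :=
      (HasFDerivAt.fun_sum fun j _ => (hc j).mul (hc j)).const_mul (1 / 2 : ℝ)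
    have h2 := h1.sub hP.hasFDerivAt
    have e : (fun y => (u t y ⬝ᵥ u t y) / 2 - p t y)
        = (fun y => (1 / 2 : ℝ) * ∑ j : Fin 3, u t y j * u t y j) - p t := by
      funext y
      simp only [dotProduct, Pi.sub_apply]
      ring
    rw [e]
    refine h2.congr_fderiv ?_
    ext w
    simp only [sub_apply, smul_apply, sum_apply,
      add_apply, smul_eq_mul]
    congr 1
    rw [Finset.mul_sum]
    refine Finset.sum_congr rfl fun j _ => ?_
    ring
  rw [hd.fderiv]
  have hg : ∀ j, fderiv ℝ (u t) x (vort (u t) x) j = (grad (u t) x).mulVec (vort (u t) x) j := by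
    intro j
    rw [← sum_mul_clm]
    simp [Matrix.mulVec, dotProduct, grad, mul_comm]
  simp only [sub_apply, smul_apply, sum_apply, smul_eq_mul,
    ContinuousLinearMap.comp_apply, ContinuousLinearMap.proj_apply, hg]
  rw [← sum_mul_clm' (fderiv ℝ (p t) x) (vort (u t) x)]
  simp only [rate, Matrix.add_mulVec, ← Matrix.mulVec_mulVec, Pi.add_apply]
  simp only [Matrix.mulVec, dotProduct, hm, row, Matrix.of_apply]
  simp only [Fin.sum_univ_three]
  ring

/-- The observer `G = ∇φ`: the observed vorticity is `ω · ∇φ`, and its rate is `ω · ∇(Dφ/Dt)`. -/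
lemma rate_gradient (h : IsC2Solution T u p) {φ : ℝ → V → ℝ}
    (hφ : ContDiffOn ℝ 2 (fun z : ℝ × V => φ z.1 z.2) (Ioo 0 T ×ˢ univ)) {t : ℝ}
    (ht : t ∈ Ioo 0 T) (x : V) :
    rate u (row fun t x j => fderiv ℝ (φ t) x (Pi.single j 1)) t x 0
      = fderiv ℝ (fun y => deriv (fun s => φ s y) t + fderiv ℝ (φ t) y (u t y)) x
          (vort (u t) x) := by
  set F : ℝ × V → ℝ := fun z => φ z.1 z.2 with hF
  have hz : (t, x) ∈ Om T := mem_Om ht x
  have hFd : ∀ z ∈ Om T, DifferentiableAt ℝ F z := fun z hz =>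
    (hφ.contDiffAt (isOpen_Om.mem_nhds hz)).differentiableAt (by norm_num)
  have hFdd : ∀ z ∈ Om T, DifferentiableAt ℝ (fderiv ℝ F) z := fun z hz =>
    ((hφ.fderiv_of_isOpen isOpen_Om (m := 1) (by norm_num)).contDiffAt
      (isOpen_Om.mem_nhds hz)).differentiableAt (by norm_num)
  have hsymm : ∀ v w : ℝ × V, fderiv ℝ (fderiv ℝ F) (t, x) v w = fderiv ℝ (fderiv ℝ F) (t, x) w v :=
    fun v w => ((hφ.contDiffAt (isOpen_Om.mem_nhds hz)).isSymmSndFDerivAt (by simp)) v w
  -- the material derivative on space-time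
  have hmat : ∀ y, deriv (fun s => φ s y) t + fderiv ℝ (φ t) y (u t y)
      = fderiv ℝ F (t, y) (1, u t y) := by
    intro y
    have hzy : (t, y) ∈ Om T := mem_Om ht y
    have h2 : HasDerivAt (fun s => φ s y) (fderiv ℝ F (t, y) (1, 0)) t :=
      HasFDerivAt.comp_hasDerivAt (l := F) (f := fun s : ℝ => ((s, y) : ℝ × V)) t
        (hFd _ hzy).hasFDerivAt ((hasDerivAt_id t).prodMk (hasDerivAt_const t y))
    have h3 := slice_fderiv (f := φ) (t := t) (x := y) (hFd _ hzy) (u t y)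
    have h4 : ((1, u t y) : ℝ × V) = (1, 0) + (0, u t y) := by simp
    rw [h2.deriv, h3, h4, map_add]
  have hmat' : (fun y => deriv (fun s => φ s y) t + fderiv ℝ (φ t) y (u t y))
      = fun y => fderiv ℝ F (t, y) (1, u t y) := funext hmat
  have hU : HasFDerivAt (u t) (fderiv ℝ (u t) x) x :=
    ((slice_hasFDerivAt (f := u) (h.du hz)).differentiableAt).hasFDerivAt
  have hinr : HasFDerivAt (fun y : V => ((t, y) : ℝ × V)) (ContinuousLinearMap.inr ℝ ℝ V) x :=
    hasFDerivAt_prodMk_right t x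
  have hL : HasFDerivAt (fun y => fderiv ℝ F (t, y) (1, u t y))
      ((fderiv ℝ F (t, x)) ∘L ((0 : V →L[ℝ] ℝ).prod (fderiv ℝ (u t) x))
        + ((fderiv ℝ (fderiv ℝ F) (t, x)) ∘L ContinuousLinearMap.inr ℝ ℝ V).flip (1, u t x)) x := by
    have h1 : HasFDerivAt (fun y : V => fderiv ℝ F (t, y))
        ((fderiv ℝ (fderiv ℝ F) (t, x)) ∘L ContinuousLinearMap.inr ℝ ℝ V) x :=
      HasFDerivAt.comp (g := fderiv ℝ F) (f := fun y : V => ((t, y) : ℝ × V)) x
        (hFdd _ hz).hasFDerivAt hinr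
    have h2 : HasFDerivAt (fun y => ((1 : ℝ), u t y)) ((0 : V →L[ℝ] ℝ).prod (fderiv ℝ (u t) x)) x :=
      (hasFDerivAt_const (1 : ℝ) x).prodMk hU
    exact h1.clm_apply h2
  rw [hmat', hL.fderiv]
  set ω : V := vort (u t) x with hω
  have hg : fderiv ℝ (u t) x ω = (grad (u t) x).mulVec ω := by
    funext j
    rw [← sum_mul_clm]
    simp [Matrix.mulVec, dotProduct, grad, mul_comm]
  -- the field
  have hG : ∀ z ∈ Om T, ∀ j : Fin 3, fderiv ℝ (φ z.1) z.2 (Pi.single j 1)
      = fderiv ℝ F z (0, Pi.single j 1) := fun z hz j =>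
    slice_fderiv (f := φ) (t := z.1) (x := z.2) (hFd _ hz) _
  have hGd : ∀ j : Fin 3, HasFDerivAt (fun z : ℝ × V => fderiv ℝ (φ z.1) z.2 (Pi.single j 1))
      ((fderiv ℝ (fderiv ℝ F) (t, x)).flip (0, Pi.single j 1)) (t, x) := by
    intro j
    have h1 : HasFDerivAt (fun z => fderiv ℝ F z (0, Pi.single j 1))
        ((fderiv ℝ (fderiv ℝ F) (t, x)).flip (0, Pi.single j 1)) (t, x) := by
      have h3 := (hFdd _ hz).hasFDerivAt.clm_apply
        (hasFDerivAt_const ((0, Pi.single j 1) : ℝ × V) (t, x))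
      refine h3.congr_fderiv ?_
      ext w <;> simp [hF]
    refine h1.congr_of_eventuallyEq ?_
    filter_upwards [isOpen_Om.mem_nhds hz] with z hz' using hG z hz' j
  have hm : ∀ j : Fin 3,
      matD u (row fun t x j => fderiv ℝ (φ t) x (Pi.single j 1)) t x 0 j
        = fderiv ℝ (fderiv ℝ F) (t, x) (1, u t x) (0, Pi.single j 1) := by
    intro j
    have h2' : HasDerivAt (fun s => fderiv ℝ (φ s) x (Pi.single j 1))
        ((fderiv ℝ (fderiv ℝ F) (t, x)).flip (0, Pi.single j 1) (1, 0)) t :=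
      HasFDerivAt.comp_hasDerivAt
        (l := fun z : ℝ × V => fderiv ℝ (φ z.1) z.2 (Pi.single j 1))
        (f := fun s : ℝ => ((s, x) : ℝ × V)) t (hGd j)
        ((hasDerivAt_id t).prodMk (hasDerivAt_const t x))
    have h2 : HasDerivAt (fun s => fderiv ℝ (φ s) x (Pi.single j 1))
        (fderiv ℝ (fderiv ℝ F) (t, x) (1, 0) (0, Pi.single j 1)) t := h2'
    have h3 : HasFDerivAt (fun y => fderiv ℝ (φ t) y (Pi.single j 1))
        (((fderiv ℝ (fderiv ℝ F) (t, x)).flip (0, Pi.single j 1)) ∘L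
          ContinuousLinearMap.inr ℝ ℝ V) x :=
      HasFDerivAt.comp (g := fun z : ℝ × V => fderiv ℝ (φ z.1) z.2 (Pi.single j 1))
        (f := fun y : V => ((t, y) : ℝ × V)) x (hGd j) hinr
    show deriv (fun s => fderiv ℝ (φ s) x (Pi.single j 1)) t
      + fderiv ℝ (fun y => fderiv ℝ (φ t) y (Pi.single j 1)) x (u t x) = _
    rw [h2.deriv, h3.fderiv]
    have h4 : ((1, u t x) : ℝ × V) = (1, 0) + (0, u t x) := by simp
    rw [h4, map_add]
    rfl
  have e1 : ∀ L : ℝ × V →L[ℝ] ℝ, ∀ w : V, ∑ j, L (0, Pi.single j 1) * w j = L (0, w) := by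
    intro L w
    have := sum_mul_clm' (L ∘L ContinuousLinearMap.inr ℝ ℝ V) w
    simp only [ContinuousLinearMap.comp_apply, ContinuousLinearMap.inr_apply] at this
    rw [← this]
    exact Finset.sum_congr rfl fun j _ => mul_comm _ _
  have hrate : rate u (row fun t x j => fderiv ℝ (φ t) x (Pi.single j 1)) t x 0
      = fderiv ℝ (fderiv ℝ F) (t, x) (1, u t x) (0, ω)
        + fderiv ℝ F (t, x) (0, (grad (u t) x).mulVec ω) := by
    simp only [rate, Matrix.add_mulVec, ← Matrix.mulVec_mulVec, Pi.add_apply]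
    rw [← e1 (fderiv ℝ (fderiv ℝ F) (t, x) (1, u t x)) ω,
      ← e1 (fderiv ℝ F (t, x)) ((grad (u t) x).mulVec ω)]
    congr 1
    · simp only [Matrix.mulVec, dotProduct, hm]
      rfl
    · simp only [Matrix.mulVec, dotProduct, row, Matrix.of_apply]
      refine Finset.sum_congr rfl fun j _ => ?_
      rw [hG (t, x) hz j]
  rw [hrate, ← hg]
  simp only [add_apply, ContinuousLinearMap.comp_apply, ContinuousLinearMap.prod_apply,
    zero_apply, ContinuousLinearMap.flip_apply, ContinuousLinearMap.inr_apply]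
  rw [hsymm (0, ω) (1, u t x)]
  ring

/-! ### Sharpness -/

/-- The third coordinate. -/
def e3 : Matrix (Fin 1) (Fin 3) ℝ := !![0, 0, 1]

lemma nr_one (c : ℝ) : nr (fun _ : Fin 1 => c) = |c| := by
  unfold nr
  simp [dotProduct, Real.sqrt_mul_self_eq_abs]

lemma e3_mulVec (y : V) : e3.mulVec y = fun _ => y 2 := by
  ext i
  fin_cases i
  simp [e3, Matrix.mulVec, dotProduct, Fin.sum_univ_three]

/-- The hypothesis of the two point criterion with `a = 1` and
`δ(t) = (1 - κ / log (1/(T-t))) / (T - t)`, `κ < 1`, for the linear flow. -/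
theorem uf_two_point (hT : 0 < T) {κ : ℝ} (hκ : κ < 1) :
    ∀ᶠ t in 𝓝[<] T, ∀ x, Visible (uf T) (cst e3) t 1 0 x ∧
      SlowAt (uf T) (cst e3) t ((1 - κ / Real.log (1 / (T - t))) / (T - t)
        * nrm (vort (uf T t) x)) x := by
  have h1 : Tendsto (fun t => Lf T t / lf T t) (𝓝[<] T) (𝓝 1) := by
    have e : Tendsto (fun t => 1 - (1 + Real.log T) / lf T t) (𝓝[<] T) (𝓝 (1 - 0)) :=
      tendsto_const_nhds.sub ((tendsto_lf T).const_div_atTop _)
    rw [sub_zero] at e
    refine e.congr' ?_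
    filter_upwards [(tendsto_lf T).eventually (eventually_gt_atTop 0)] with t ht
    have : Lf T t = lf T t - (1 + Real.log T) := by unfold lf; ring
    rw [this, sub_div, div_self ht.ne']
  filter_upwards [h1.eventually (lt_mem_nhds hκ), (tendsto_Lf T).eventually
    (eventually_gt_atTop 0), Ico_mem_nhdsLT hT] with t ht hL htI x
  have hy := yf_pos htI
  have hl := lf_ge htI
  have hs : 0 < T - t := sub_pos.2 htI.2
  have ho : ∀ z, obs (uf T) (cst e3) t z = fun _ => yf T t := by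
    intro z
    rw [obs_cst, uf_vort, e3_mulVec]
    rfl
  have hr : rate (uf T) (cst e3) t x = fun _ => af T t * yf T t := by
    rw [rate_cst, uf_vort, uf_grad, e3_mulVec]
    funext _
    simp [Af, Matrix.mulVec, dotProduct, Fin.sum_univ_three]
  refine ⟨⟨fun y => ?_, Or.inr ?_⟩, fun z => ?_, ?_⟩
  · rw [uf_vort, uf_vort]
  · rw [ho, uf_vort, nrm_e2, nr_one, one_mul]
  · rw [ho, ho]
  · rw [hr, ho, uf_vort, nrm_e2, nr_one, abs_of_pos hy, ← Lf_eq]
    have e1 : (fun _ : Fin 1 => yf T t) ⬝ᵥ (fun _ : Fin 1 => af T t * yf T t)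
        = af T t * (yf T t * yf T t) := by
      simp [dotProduct]
      ring
    rw [e1]
    have e2 : af T t ≤ (1 - κ / Lf T t) / (T - t) := by
      unfold af
      rw [← div_eq_mul_inv]
      have e3 : κ / Lf T t ≤ (lf T t)⁻¹ := by
        rw [div_le_iff₀ hL, inv_mul_eq_div]
        exact ht.le
      gcongr
    calc af T t * (yf T t * yf T t) ≤ (1 - κ / Lf T t) / (T - t) * (yf T t * yf T t) := by
          gcongr
      _ = _ := by ring

/-- The hypothesis of the pressure threshold with `a = 1` and `κ < 3`, for the linear flow. -/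
theorem uf_press (hT : 0 < T) {κ : ℝ} (hκ : κ < 3) :
    ∀ᶠ t in 𝓝[<] T, ∀ x, Visible (uf T) (cst e3) t 1 0 x ∧
      ∀ y, (T - t) ^ 2 * nr (e3.mulVec ((hess (pf T t) y).mulVec (vort (uf T t) y)))
        ≤ 1 * (2 - κ / Real.log (1 / (T - t))) * nrm (vort (uf T t) x) := by
  filter_upwards [uf_hyp hT hκ, Ico_mem_nhdsLT hT] with t h1 htI x
  have hy := yf_pos htI
  have ho : ∀ z, obs (uf T) (cst e3) t z = fun _ => yf T t := by
    intro z
    rw [obs_cst, uf_vort, e3_mulVec]
    rfl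
  refine ⟨⟨fun y => ?_, Or.inr ?_⟩, fun y => ?_⟩
  · rw [uf_vort, uf_vort]
  · rw [ho, uf_vort, nrm_e2, nr_one, one_mul]
  · have h2 := h1 y
    have e1 : (hess (pf T t) y).mulVec (vort (uf T t) y)
        = ![0, 0, -(bf T t + af T t ^ 2) * yf T t] := by
      rw [pf_hess, uf_vort]
      ext i
      fin_cases i <;> simp [Matrix.mulVec_diagonal, df]
    rw [e1, nrm_e2] at h2
    rw [e1, e3_mulVec, nr_one, one_mul]
    rw [uf_vort] at h2 ⊢
    exact h2

end Pool.Agent.Helper29.Vis
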