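import Pool.Agent.Helper29.Vis.Basic

/-!
# Growth of the maximum of the observed vorticity; the two point criterion
-/

set_option autoImplicit false

open MeasureTheory Set Filter
open scoped ENNReal NNReal Topology

namespace Pool.Agent.Helper29.Vis

open Pool.Agent.H708R2.EulerSign Pool.Agent.H708R2.EulerTypeI Pool.Agent.W786.Max

variable {T : ℝ} {u : ℝ → V → V} {p : ℝ → V → ℝ} {n : ℕ}
  {G : ℝ → V → Matrix (Fin n) (Fin 3) ℝ}

/-- Where the maximum of the observed vorticity is differentiable, its derivative is at most the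
rate at any point where the maximum is attained. -/
lemma Y_deriv_le (h : IsC2Solution T u p) (hG : IsField T G) {t : ℝ} (ht : t ∈ Ioo 0 T) {x : V}
    (hx : ∀ y, nr (obs u G t y) ≤ nr (obs u G t x)) {d : ℝ}
    (hd : HasDerivAt (Ymax u G) d t) :
    d * nr (obs u G t x) ≤ max (obs u G t x ⬝ᵥ rate u G t x) 0 := by
  obtain ⟨a', ha1, ha2⟩ := exists_between ht.1
  obtain ⟨X, hX, hXx⟩ := exists_traj h.sol ha1.le ha2.le ht.2 x
  have hsub2 : Icc a' t ⊆ Ioo 0 T := fun s hs => ⟨ha1.trans_le hs.1, hs.2.trans_lt ht.2⟩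
  have htI : t ∈ Icc a' t := ⟨ha2.le, le_rfl⟩
  have hne : (𝓝[Icc a' t \ {t}] t).NeBot := by
    have : Icc a' t \ {t} = Ico a' t := by
      ext s
      simp only [Set.mem_sdiff, mem_Icc, mem_singleton_iff, mem_Ico]
      constructor
      · rintro ⟨⟨h1, h2⟩, h3⟩
        exact ⟨h1, lt_of_le_of_ne h2 h3⟩
      · rintro ⟨h1, h2⟩
        exact ⟨⟨h1, h2.le⟩, h2.ne⟩
    rw [this]
    exact right_nhdsWithin_Ico_neBot ha2
  rcases (nr_nonneg (obs u G t x)).eq_or_lt with h0 | h0
  · rw [← h0, mul_zero]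
    exact le_max_right _ _
  refine le_max_of_le_left ?_
  have h1 := obs_deriv h hG hX hsub2 htI
  have h3 : HasDerivWithinAt (fun s => ∑ i, obs u G s (X s) i * obs u G s (X s) i)
      (∑ i, (rate u G t (X t) i * obs u G t (X t) i
        + obs u G t (X t) i * rate u G t (X t) i)) (Icc a' t) t :=
    HasDerivWithinAt.fun_sum fun i _ =>
      (hasDerivWithinAt_pi.1 h1 i).mul (hasDerivWithinAt_pi.1 h1 i)
  have h4 : HasDerivWithinAt (fun s => obs u G s (X s) ⬝ᵥ obs u G s (X s))
      (2 * (obs u G t x ⬝ᵥ rate u G t x)) (Icc a' t) t := by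
    refine h3.congr_deriv ?_
    rw [hXx]
    simp only [dotProduct, Finset.mul_sum]
    refine Finset.sum_congr rfl fun i _ => ?_
    ring
  have hne0 : obs u G t (X t) ⬝ᵥ obs u G t (X t) ≠ 0 := by
    rw [hXx, ← nr_sq]
    positivity
  have h5 : HasDerivWithinAt (fun s => nr (obs u G s (X s)))
      ((obs u G t x ⬝ᵥ rate u G t x) / nr (obs u G t x)) (Icc a' t) t := by
    refine (h4.sqrt hne0).congr_deriv ?_
    rw [hXx]
    show 2 * (obs u G t x ⬝ᵥ rate u G t x) / (2 * nr (obs u G t x)) = _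
    rw [mul_div_mul_left _ _ (two_ne_zero)]
  have h6 : HasDerivWithinAt (Ymax u G) d (Icc a' t) t := hd.hasDerivWithinAt
  rw [hasDerivWithinAt_iff_tendsto_slope] at h5 h6
  rw [← le_div_iff₀ h0]
  refine le_of_tendsto_of_tendsto h6 h5 ?_
  filter_upwards [self_mem_nhdsWithin] with s hs
  have hst : s < t := lt_of_le_of_ne hs.1.2 hs.2
  have e1 : Ymax u G t = nr (obs u G t (X t)) := by rw [hXx, Ymax_eq h hG ht hx]
  have e2 : nr (obs u G s (X s)) ≤ Ymax u G s :=
    le_Ymax h hG ⟨ha1.trans_le hs.1.1, hst.trans ht.2⟩ _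
  rw [slope_def_field, slope_def_field, e1]
  have hneg : s - t < 0 := by linarith
  rw [div_le_div_right_of_neg hneg]
  linarith

/-- A max point is visible: the vorticity is small or `a |ω| ≤ |G ω|`. -/
def Visible (u : ℝ → V → V) (G : ℝ → V → Matrix (Fin n) (Fin 3) ℝ) (t a Λ : ℝ) (x : V) : Prop :=
  IsMaxPt u t x ∧ (nrm (vort (u t) x) ≤ Λ ∨ a * nrm (vort (u t) x) ≤ nr (obs u G t x))

/-- At a point `y` where the observed vorticity has its maximal size, this size grows at most with
the rate `m`. -/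
def SlowAt (u : ℝ → V → V) (G : ℝ → V → Matrix (Fin n) (Fin 3) ℝ) (t m : ℝ) (y : V) : Prop :=
  (∀ z, nr (obs u G t z) ≤ nr (obs u G t y)) ∧
    obs u G t y ⬝ᵥ rate u G t y ≤ m * nr (obs u G t y)

/-- The bound of the observed vorticity. -/
theorem two_point_bound (h : IsC2Solution T u p) (hG : IsField T G) {s b K : ℝ} {g : ℝ → ℝ}
    (hs : 0 < s) (hsb : s ≤ b) (hb : b < T) (hK : 0 < K) (hg : IntegrableOn g (Ioo s b))
    (hg0 : ∀ t ∈ Ioo s b, 0 ≤ g t)
    (hyp : ∀ᵐ t, t ∈ Ioo s b → ∃ y, SlowAt u G t (g t * (Ymax u G t + K)) y) :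
    Ymax u G b + K ≤ (Ymax u G s + K) * Real.exp (∫ t in s..b, g t) := by
  obtain ⟨C, hC0, hC⟩ := Ymax_incr h hG hs hb
  have hpos : ∀ t, 0 < Ymax u G t + K := fun t => by
    have := Ymax_nonneg (u := u) (G := G) t
    linarith
  set L : ℝ → ℝ := fun t => Real.log (Ymax u G t + K) with hL
  have hLinc : ∀ r ∈ Icc s b, ∀ t ∈ Icc s b, r ≤ t → L t - L r ≤ C / K * (t - r) := by
    intro r hr t ht hrt
    have h1 := hC r hr t ht hrt
    have h2 : L t - L r = Real.log ((Ymax u G t + K) / (Ymax u G r + K)) :=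
      (Real.log_div (hpos t).ne' (hpos r).ne').symm
    rw [h2]
    have h3 := Real.log_le_sub_one_of_pos (div_pos (hpos t) (hpos r))
    refine h3.trans ?_
    rw [div_sub_one (hpos r).ne', div_le_iff₀ (hpos r)]
    have h4 : 0 ≤ Ymax u G r := Ymax_nonneg _
    have h5 : 0 ≤ t - r := sub_nonneg.2 hrt
    have h6 : C / K * (t - r) * (Ymax u G r + K)
        = C * (t - r) + C / K * (t - r) * Ymax u G r := by
      field_simp
      ring
    rw [h6]
    have h7 : 0 ≤ C / K * (t - r) * Ymax u G r := by positivity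
    linarith
  have hgi : IntervalIntegrable g volume s b :=
    (intervalIntegrable_iff_integrableOn_Ioo_of_le hsb).2 hg
  have key := growth_of_ae (L := L) (r := g) (C := C / K) hsb hLinc hgi (by
    filter_upwards [hyp] with t ht htI d hd
    obtain ⟨y, hy1, hy2⟩ := ht htI
    have htT : t ∈ Ioo 0 T := ⟨hs.trans htI.1, htI.2.trans hb⟩
    have hYd : HasDerivAt (Ymax u G) (d * (Ymax u G t + K)) t := by
      have h1 : HasDerivAt (fun t => Real.exp (L t) - K) (Real.exp (L t) * d) t :=
        (hd.exp).sub_const K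
      have h2 : (fun t => Real.exp (L t) - K) = Ymax u G := by
        funext t
        simp only [hL]
        rw [Real.exp_log (hpos t)]
        ring
      rw [h2] at h1
      refine h1.congr_deriv ?_
      simp only [hL]
      rw [Real.exp_log (hpos t)]
      ring
    have h3 := Y_deriv_le h hG htT hy1 hYd
    have hYe := Ymax_eq h hG htT hy1
    rcases (nr_nonneg (obs u G t y)).eq_or_lt with h0 | h0
    · -- the maximum is `0`: the derivative vanishes
      have hY0 : Ymax u G t = 0 := by rw [hYe, ← h0]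
      have hmin : IsLocalMin (Ymax u G) t := by
        refine Filter.Eventually.of_forall fun r => ?_
        rw [hY0]
        exact Ymax_nonneg r
      have h4 := hmin.hasDerivAt_eq_zero hYd
      have h5 : d = 0 := by
        rcases mul_eq_zero.1 h4 with h6 | h6
        · exact h6
        · exact absurd h6 (hpos t).ne'
      rw [h5]
      exact hg0 t htI
    · have h4 : max (obs u G t y ⬝ᵥ rate u G t y) 0
          ≤ g t * (Ymax u G t + K) * nr (obs u G t y) := by
        refine max_le hy2 ?_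
        have := hg0 t htI
        have := hpos t
        positivity
      have h5 := h3.trans h4
      have h6 : d * (Ymax u G t + K) ≤ g t * (Ymax u G t + K) := le_of_mul_le_mul_right h5 h0
      exact le_of_mul_le_mul_right h6 (hpos t))
  have h1 : L b ≤ L s + ∫ t in s..b, g t := by linarith
  have h2 : Ymax u G b + K = Real.exp (L b) := (Real.exp_log (hpos b)).symm
  have h3 : Ymax u G s + K = Real.exp (L s) := (Real.exp_log (hpos s)).symm
  rw [h2, h3, ← Real.exp_add]
  exact Real.exp_le_exp.2 h1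

end Pool.Agent.Helper29.Vis
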