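import Pool.Agent.Helper29.Vis.Second

/-!
# Criteria with one row of the Hessian of the pressure
-/

set_option autoImplicit false

open MeasureTheory Set Filter
open scoped ENNReal NNReal Topology

namespace Pool.Agent.Helper29.Vis

open Pool.Agent.H708R2.EulerSign Pool.Agent.H708R2.EulerTypeI Pool.Agent.W786.Max

variable {T : ℝ} {u : ℝ → V → V} {p : ℝ → V → ℝ} {n : ℕ} {P : Matrix (Fin n) (Fin 3) ℝ}

/-- The threshold of type I. -/
theorem press_threshold (hT : 0 < T) (h : IsC2Solution T u p) {κ a Λ : ℝ} (hκ : 3 < κ)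
    (ha : 0 < a) (ha1 : a ≤ 1)
    (hyp : ∀ᶠ t in 𝓝[<] T, ∃ x, Visible u (cst P) t a Λ x ∧
      ∀ y, (T - t) ^ 2 * nr (P.mulVec ((hess (p t) y).mulVec (vort (u t) y)))
        ≤ a * (2 - κ / Real.log (1 / (T - t))) * nrm (vort (u t) x)) :
    (∃ C : ℝ, ∀ᶠ t in 𝓝[<] T, ∀ x,
      nrm (vort (u t) x) ≤ C / ((T - t) * Real.log (1 / (T - t)) ^ (κ / 3))) ∧
    BKMFinite T u := by
  obtain ⟨t₀, ht₀, hP⟩ := exists_start hT hyp (max 1 κ)
  set K : ℝ := max Λ 1 with hKdef
  have hK : 0 < K := lt_of_lt_of_le one_pos (le_max_right _ _)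
  have hΛK : Λ ≤ K := le_max_left _ _
  have hL : ∀ t ∈ Ico t₀ T, 1 ≤ Lf T t ∧ κ ≤ Lf T t := fun t ht =>
    ⟨(le_max_left _ _).trans (hP t ht).2, (le_max_right _ _).trans (hP t ht).2⟩
  have hLpos : ∀ t ∈ Ico t₀ T, 0 < Lf T t := fun t ht => lt_of_lt_of_le one_pos (hL t ht).1
  have hκL : ∀ t ∈ Ico t₀ T, κ / Lf T t ≤ 1 := fun t ht =>
    (div_le_one (hLpos t ht)).2 (hL t ht).2
  set β := κ / 3 with hβ
  have hβ1 : 1 < β := by rw [hβ]; linarith
  have hR1pos : ∀ t ∈ Ico t₀ T, 0 < Rf T 1 β t * ((1 - β / Lf T t) / (T - t)) := by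
    intro t ht
    have h1 := hκL t ht
    have h2 : β / Lf T t = (κ / Lf T t) / 3 := by rw [hβ]; ring
    have h3 : 0 < 1 - β / Lf T t := by rw [h2]; linarith
    have h4 : 0 < T - t := sub_pos.2 ht.2
    have h5 := Rf_pos T 1 β t
    positivity
  have hfac : ∀ t ∈ Ico t₀ T, 2 - κ / Lf T t ≤
      (1 * (1 + 1) - (2 * 1 + 1) * β / Lf T t + β * (β + 1) / (Lf T t) ^ 2) := by
    intro t ht
    have h1 := hLpos t ht
    have h2 : (2 * 1 + 1) * β / Lf T t = κ / Lf T t := by rw [hβ]; ring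
    have h3 : 0 ≤ β * (β + 1) / (Lf T t) ^ 2 := by positivity
    rw [h2]
    linarith
  have hR2 : ∀ t ∈ Ico t₀ T, 0 ≤ Rf T 1 β t * ((1 * (1 + 1) - (2 * 1 + 1) * β / Lf T t
      + β * (β + 1) / (Lf T t) ^ 2) / (T - t) ^ 2) := by
    intro t ht
    have h1 := hfac t ht
    have h2 := hκL t ht
    have h4 : 0 < T - t := sub_pos.2 ht.2
    have h5 := Rf_pos T 1 β t
    have h6 : 0 ≤ 1 * (1 + 1) - (2 * 1 + 1) * β / Lf T t + β * (β + 1) / (Lf T t) ^ 2 := by
      linarith
    positivity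
  have htT : ∀ t ∈ Ico t₀ T, t ∈ Ioo 0 T := fun t ht => ⟨ht₀.1.trans_le ht.1, ht.2⟩
  have hq : ∀ t ∈ Ico t₀ T, ∀ x, nr (P.mulVec ((hess (p t) x).mulVec (vort (u t) x))) ≤
      Rf T 1 β t * ((1 * (1 + 1) - (2 * 1 + 1) * β / Lf T t
      + β * (β + 1) / (Lf T t) ^ 2) / (T - t) ^ 2) / Rf T 1 β t
        * (Ymax u (cst P) t + K) := by
    intro t ht y
    have h1 := hfac t ht
    have h4 : 0 < T - t := sub_pos.2 ht.2
    have h5 := Rf_pos T 1 β t
    obtain ⟨x, hx, h6⟩ := (hP t ht).1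
    have h6 := h6 y
    rw [← Lf_eq] at h6
    have h7 := nrm_nonneg (vort (u t) x)
    have h8 := visible_le h (cst_field T P) (htT t ht) ha ha1 hK.le hΛK hx
    rw [le_div_iff₀ ha] at h8
    have h9 : 0 ≤ 2 - κ / Lf T t := by
      have := hκL t ht
      linarith
    have h10 := Ymax_nonneg (u := u) (G := cst P) t
    rw [mul_div_cancel_left₀ _ h5.ne', div_mul_eq_mul_div, le_div_iff₀ (by positivity)]
    calc nr (P.mulVec ((hess (p t) y).mulVec (vort (u t) y))) * (T - t) ^ 2
        = (T - t) ^ 2 * nr (P.mulVec ((hess (p t) y).mulVec (vort (u t) y))) := by ring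
      _ ≤ a * (2 - κ / Lf T t) * nrm (vort (u t) x) := h6
      _ = (2 - κ / Lf T t) * (nrm (vort (u t) x) * a) := by ring
      _ ≤ (2 - κ / Lf T t) * (Ymax u (cst P) t + K) := by gcongr
      _ ≤ _ := by gcongr
  obtain ⟨C, hC0, hC⟩ := second_comp h ht₀ hK.le (P := P) (R := Rf T 1 β)
    (R1 := fun t => Rf T 1 β t * ((1 - β / Lf T t) / (T - t)))
    (R2 := fun t => Rf T 1 β t * ((1 * (1 + 1) - (2 * 1 + 1) * β / Lf T t
      + β * (β + 1) / (Lf T t) ^ 2) / (T - t) ^ 2))
    (fun t ht => Rf_hasDerivAt ht.2 (hLpos t ht)) (fun t ht => Rf_hasDerivAt2 ht.2 (hLpos t ht))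
    (fun t _ => Rf_pos T 1 β t) hR1pos hR2 hq
  -- rewriting the bound
  have hform : ∀ t ∈ Ico t₀ T, Rf T 1 β t = 1 / (T - t) * (Lf T t) ^ (-β) := by
    intro t ht
    have h1 := hLpos t ht
    have h4 : 0 < T - t := sub_pos.2 ht.2
    unfold Rf
    rw [one_mul, Real.exp_sub, mul_comm β, ← Real.rpow_def_of_pos h1, Real.rpow_neg h1.le,
      div_eq_mul_inv]
    congr 1
    rw [Lf, Real.exp_neg, Real.exp_log h4, one_div]
  have hfin : ∀ t ∈ Ico t₀ T, ∀ x,
      nrm (vort (u t) x) ≤ C / a * (1 / (T - t) * (Lf T t) ^ (-β)) := by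
    intro t ht y
    rw [← hform t ht]
    obtain ⟨x, hx, -⟩ := (hP t ht).1
    have h8 := visible_le h (cst_field T P) (htT t ht) ha ha1 hK.le hΛK hx
    calc nrm (vort (u t) y) ≤ nrm (vort (u t) x) := hx.1 y
      _ ≤ (Ymax u (cst P) t + K) / a := h8
      _ ≤ C * Rf T 1 β t / a := by
        have := hC t ht
        gcongr
      _ = _ := by ring
  refine ⟨⟨C / a, ?_⟩, bkm_of_rate h.sol ht₀ hβ1 hLpos hfin⟩
  have hmem : Ico t₀ T ∈ 𝓝[<] T := Ico_mem_nhdsLT ht₀.2
  filter_upwards [hmem] with t ht x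
  refine (hfin t ht x).trans (le_of_eq ?_)
  rw [← Lf_eq, Real.rpow_neg (hLpos t ht).le]
  have h4 : 0 < T - t := sub_pos.2 ht.2
  have h5 : 0 < (Lf T t) ^ β := Real.rpow_pos_of_pos (hLpos t ht) _
  field_simp

lemma hess_contOn (h : IsC2Solution T u p) (i j : Fin 3) :
    ContinuousOn (fun z : ℝ × V => hess (p z.1) z.2 i j) (Om T) := by
  have h1 : ContDiffOn ℝ 1 (fderiv ℝ (fun z : ℝ × V => p z.1 z.2)) (Om T) :=
    h.p2.fderiv_of_isOpen isOpen_Om (m := 1) (by norm_num)
  have h2 : ContinuousOn (fderiv ℝ (fderiv ℝ (fun z : ℝ × V => p z.1 z.2))) (Om T) :=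
    h1.continuousOn_fderiv_of_isOpen isOpen_Om (by norm_num)
  exact ((h2.clm_apply continuousOn_const).clm_apply continuousOn_const).congr
    fun z hz => h.hess_eq hz i j

lemma second_contOn (h : IsC2Solution T u p) {X : ℝ → V} {a b : ℝ} (hX : IsTraj u X a b)
    (hab : Icc a b ⊆ Ioo 0 T) :
    ContinuousOn (fun t => (WithLp.toLp 2 (-P.mulVec ((hess (p t) (X t)).mulVec
      (vort (u t) (X t)))) : EuclideanSpace ℝ (Fin n))) (Icc a b) := by
  have hZ : ContinuousOn (fun t => ((t, X t) : ℝ × V)) (Icc a b) :=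
    continuousOn_id.prodMk fun t ht => (hX t ht).continuousWithinAt
  have hm : MapsTo (fun t => ((t, X t) : ℝ × V)) (Icc a b) (Om T) := fun t ht => mem_Om (hab ht) _
  have hh : ∀ i j, ContinuousOn (fun t => hess (p t) (X t) i j) (Icc a b) := fun i j =>
    (hess_contOn h i j).comp hZ hm
  have hv : ∀ i, ContinuousOn (fun t => vort (u t) (X t) i) (Icc a b) := fun i =>
    (vort_contOn h i).comp hZ hm
  refine (PiLp.continuous_toLp 2 _).comp_continuousOn (continuousOn_pi.2 fun i => ?_)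
  simp only [Pi.neg_apply, Matrix.mulVec, dotProduct]
  refine ContinuousOn.neg (continuousOn_finsetSum _ fun j _ => continuousOn_const.mul ?_)
  exact continuousOn_finsetSum _ fun k _ => (hh j k).mul (hv k)

/-- The integral of a row of the Hessian of the pressure. -/
theorem press_integral (h : IsC2Solution T u p) {s a Λ : ℝ} {γ : ℝ → ℝ} (hs : s ∈ Ioo 0 T)
    (ha : 0 < a) (ha1 : a ≤ 1) (hγ : ∀ t ∈ Ioo s T, 0 ≤ γ t)
    (hint : IntegrableOn (fun t => (T - t) * γ t) (Ioo s T))
    (hyp : ∀ᵐ t, t ∈ Ioo s T → ∃ x, Visible u (cst P) t a Λ x ∧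
      ∀ y, nr (P.mulVec ((hess (p t) y).mulVec (vort (u t) y))) ≤ γ t * nrm (vort (u t) x)) :
    (∃ C : ℝ, (∀ t ∈ Ico s T, ∀ x, nr (obs u (cst P) t x) ≤ C) ∧
      ∀ᵐ t, t ∈ Ioo s T → ∀ x, nrm (vort (u t) x) ≤ C) ∧ BKMFinite T u := by
  have hG := cst_field T P
  set K : ℝ := max Λ 1 with hKdef
  have hK : 0 < K := lt_of_lt_of_le one_pos (le_max_right _ _)
  have hΛK : Λ ≤ K := le_max_left _ _
  -- a time after which the integral is small
  have hII : IntervalIntegrable (fun t => (T - t) * γ t) volume s T :=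
    (intervalIntegrable_iff_integrableOn_Ioo_of_le hs.2.le).2 hint
  obtain ⟨r, hr, hr2⟩ : ∃ r ∈ Ioo s T, ∀ b ∈ Icc r T, ∫ t in r..b, (T - t) * γ t ≤ a / 2 := by
    have hc : ContinuousOn (fun b => ∫ t in s..b, (T - t) * γ t) (uIcc s T) :=
      intervalIntegral.continuousOn_primitive_interval' hII left_mem_uIcc
    rw [uIcc_of_le hs.2.le] at hc
    have h1 : Tendsto (fun b => ∫ t in s..b, (T - t) * γ t) (𝓝[Ioo s T] T)
        (𝓝 (∫ t in s..T, (T - t) * γ t)) :=
      (hc T ⟨hs.2.le, le_rfl⟩).mono_left (nhdsWithin_mono _ Ioo_subset_Icc_self)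
    have h2 : ∀ᶠ b in 𝓝[Ioo s T] T, (∫ t in s..T, (T - t) * γ t)
        - a / 2 < ∫ t in s..b, (T - t) * γ t :=
      h1.eventually (lt_mem_nhds (by linarith))
    have h3 : (𝓝[Ioo s T] T).NeBot := right_nhdsWithin_Ioo_neBot hs.2
    obtain ⟨r, hr1, hr2⟩ := (h2.and self_mem_nhdsWithin).exists
    refine ⟨r, hr2, fun b hb => ?_⟩
    have i1 : IntervalIntegrable (fun t => (T - t) * γ t) volume s r :=
      hII.mono_set (by rw [uIcc_of_le hr2.1.le, uIcc_of_le hs.2.le]; exact Icc_subset_Icc_right hr2.2.le)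
    have i2 : IntervalIntegrable (fun t => (T - t) * γ t) volume r b :=
      hII.mono_set (by
        rw [uIcc_of_le hb.1, uIcc_of_le hs.2.le]; exact Icc_subset_Icc hr2.1.le hb.2)
    have i3 : IntervalIntegrable (fun t => (T - t) * γ t) volume b T :=
      hII.mono_set (by
        rw [uIcc_of_le hb.2, uIcc_of_le hs.2.le]
        exact Icc_subset_Icc_left (hr2.1.le.trans hb.1))
    have e1 := intervalIntegral.integral_add_adjacent_intervals i1 i2
    have e2 := intervalIntegral.integral_add_adjacent_intervals (i1.trans i2) i3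
    have e3 : 0 ≤ ∫ t in b..T, (T - t) * γ t := by
      refine intervalIntegral.integral_nonneg_of_ae_restrict hb.2 ?_
      rw [← restrict_Ioo_eq_restrict_Icc, Filter.EventuallyLE, ae_restrict_iff' measurableSet_Ioo]
      refine Eventually.of_forall fun t ht => ?_
      have h5 : t ∈ Ioo s T := ⟨(hr2.1.trans_le hb.1).trans ht.1, ht.2⟩
      exact mul_nonneg (sub_nonneg.2 ht.2.le) (hγ t h5)
    linarith
  have hrT : r ∈ Ioo 0 T := ⟨hs.1.trans hr.1, hr.2⟩
  obtain ⟨M0, hM00, hM0⟩ := nr_bound (f := fun t x => obs u (cst P) t x) hs.1 hr.2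
    (fun i => obs_contOn h hG i) (fun t ht => obs_periodic h hG ht)
  obtain ⟨M1, hM10, hM1⟩ := nr_bound (f := fun t x => rate u (cst P) t x) hrT.1 hrT.2
    (fun i => rate_contOn h hG i) (fun t ht => rate_periodic h hG ht)
  set W : ℝ := M0 + T * M1 with hW
  have hT0 : 0 < T := hs.1.trans hs.2
  have hW0 : 0 ≤ W := by positivity
  -- the bound of `P ω`
  have hY : ∀ b ∈ Ico r T, Ymax u (cst P) b ≤ 2 * W + K := by
    intro b hb
    have hbT : b ∈ Ioo 0 T := ⟨hrT.1.trans_le hb.1, hb.2⟩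
    obtain ⟨C', hC'0, hC'⟩ := nr_bound (f := fun t x => obs u (cst P) t x) hrT.1 hb.2
      (fun i => obs_contOn h hG i) (fun t ht => obs_periodic h hG ht)
    have hne : Nonempty (Icc r b) := ⟨⟨r, le_rfl, hb.1⟩⟩
    set q : Icc r b → ℝ := fun t => Ymax u (cst P) t with hq
    have hqb : BddAbove (range q) := by
      refine ⟨C', ?_⟩
      rintro _ ⟨⟨t, ht⟩, rfl⟩
      exact ciSup_le fun x => hC' t ht x
    set N : ℝ := ⨆ t, q t with hN
    have hqN : ∀ t ∈ Icc r b, Ymax u (cst P) t ≤ N := fun t ht => le_ciSup hqb ⟨t, ht⟩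
    have hN0 : 0 ≤ N := (Ymax_nonneg (u := u) (G := cst P) r).trans (hqN r ⟨le_rfl, hb.1⟩)
    -- the main estimate
    have hmain : ∀ t ∈ Icc r b, ∀ x, nr (obs u (cst P) t x) ≤ W + (N + K) / 2 := by
      intro t ht x
      have htT : t < T := ht.2.trans_lt hb.2
      obtain ⟨X, hX, hXx⟩ := exists_traj h.sol hrT.1.le ht.1 htT x
      have hsub2 : Icc r t ⊆ Ioo 0 T := fun τ hτ => ⟨hrT.1.trans_le hτ.1, hτ.2.trans_lt htT⟩
      set y : ℝ → EuclideanSpace ℝ (Fin n) := fun t => WithLp.toLp 2 (obs u (cst P) t (X t))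
        with hy
      set y1 : ℝ → EuclideanSpace ℝ (Fin n) := fun t => WithLp.toLp 2 (rate u (cst P) t (X t))
        with hy1
      set y2 : ℝ → EuclideanSpace ℝ (Fin n) := fun t =>
        WithLp.toLp 2 (-P.mulVec ((hess (p t) (X t)).mulVec (vort (u t) (X t)))) with hy2
      have hyd : ∀ τ ∈ Icc r t, HasDerivWithinAt y (y1 τ) (Icc r t) τ := fun τ hτ =>
        toLp_deriv (obs_deriv h hG hX hsub2 hτ)
      have hy1d : ∀ τ ∈ Icc r t, HasDerivWithinAt y1 (y2 τ) (Icc r t) τ := fun τ hτ =>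
        toLp_deriv (obs_deriv2 h hX hsub2 hτ)
      -- `w = y + (T - τ) y'`
      set w : ℝ → EuclideanSpace ℝ (Fin n) := fun τ => y τ + (T - τ) • y1 τ with hw
      have hwd : ∀ τ ∈ Icc r t, HasDerivWithinAt w ((T - τ) • y2 τ) (Icc r t) τ := by
        intro τ hτ
        have h1 : HasDerivWithinAt (fun τ : ℝ => T - τ) (-1) (Icc r t) τ := by
          simpa using ((hasDerivAt_id τ).const_sub T).hasDerivWithinAt
        have h2 := (hyd τ hτ).add (h1.smul (hy1d τ hτ))
        refine h2.congr_deriv ?_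
        simp
      have hy1c : ContinuousOn y1 (Icc r t) := fun τ hτ => (hy1d τ hτ).continuousWithinAt
      have hyc : ContinuousOn y (Icc r t) := fun τ hτ => (hyd τ hτ).continuousWithinAt
      have hwb : ∀ τ ∈ Icc r t, ‖w τ‖ ≤ W + (N + K) / 2 := by
        intro τ hτ
        have hwr : ‖w r‖ ≤ W := by
          have e1 : ‖y r‖ ≤ M0 := by
            rw [hy, ← nr_eq]
            exact hM0 r ⟨hr.1.le, le_rfl⟩ _
          have e2 : ‖y1 r‖ ≤ M1 := by
            rw [hy1, ← nr_eq]
            exact hM1 r ⟨le_rfl, le_rfl⟩ _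
          have e3 : ‖(T - r) • y1 r‖ ≤ T * M1 := by
            rw [norm_smul, Real.norm_eq_abs, abs_of_pos (sub_pos.2 hr.2)]
            have : T - r ≤ T := by linarith [hrT.1]
            gcongr
          calc ‖w r‖ ≤ ‖y r‖ + ‖(T - r) • y1 r‖ := norm_add_le _ _
            _ ≤ W := by rw [hW]; linarith
        have hdiff : ‖w τ - w r‖ ≤ (N + K) / 2 := by
          have hsubτ : Icc r τ ⊆ Icc r t := Icc_subset_Icc_right hτ.2
          have hw'c : ContinuousOn (fun σ => (T - σ) • y2 σ) (Icc r τ) :=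
            ContinuousOn.smul (f := fun σ : ℝ => T - σ) (by fun_prop)
              ((second_contOn h hX hsub2).mono hsubτ)
          have hw'i : IntervalIntegrable (fun σ => (T - σ) • y2 σ) volume r τ := by
            refine ContinuousOn.intervalIntegrable ?_
            rwa [uIcc_of_le hτ.1]
          have e1 : ∫ σ in r..τ, (T - σ) • y2 σ = w τ - w r := by
            refine intervalIntegral.integral_eq_sub_of_hasDeriv_right_of_le hτ.1
              (fun σ hσ => ((hwd σ (hsubτ hσ)).continuousWithinAt).mono hsubτ)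
              (fun σ hσ => ?_) hw'i
            have h1 := (hwd σ (hsubτ (Ioo_subset_Icc_self hσ))).mono hsubτ
            exact (h1.hasDerivAt (Icc_mem_nhds hσ.1 hσ.2)).hasDerivWithinAt
          rw [← e1]
          refine (intervalIntegral.norm_integral_le_integral_norm hτ.1).trans ?_
          have hτT : τ < T := hτ.2.trans_lt htT
          have e2 : ∫ σ in r..τ, ‖(T - σ) • y2 σ‖
              ≤ ∫ σ in r..τ, (T - σ) * γ σ * ((N + K) / a) := by
            refine intervalIntegral.integral_mono_ae_restrict hτ.1 hw'i.norm ?_ ?_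
            · refine IntervalIntegrable.mul_const ?_ _
              refine hII.mono_set ?_
              rw [uIcc_of_le hτ.1, uIcc_of_le hs.2.le]
              exact Icc_subset_Icc hr.1.le hτT.le
            · rw [← restrict_Ioo_eq_restrict_Icc, Filter.EventuallyLE,
                ae_restrict_iff' measurableSet_Ioo]
              filter_upwards [hyp] with σ hσ hσI
              have hσs : σ ∈ Ioo s T := ⟨hr.1.trans hσI.1, hσI.2.trans hτT⟩
              have hσ0 : σ ∈ Ioo 0 T := ⟨hs.1.trans hσs.1, hσs.2⟩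
              obtain ⟨x', hx', hx2⟩ := hσ hσs
              have f1 := hx2 (X σ)
              have f2 := visible_le h hG hσ0 ha ha1 hK.le hΛK hx'
              have f3 := hqN σ ⟨hσI.1.le, hσI.2.le.trans (hτ.2.trans ht.2)⟩
              have f4 := hγ σ hσs
              have f5 : 0 ≤ T - σ := sub_nonneg.2 hσs.2.le
              rw [norm_smul, Real.norm_eq_abs, abs_of_nonneg f5, hy2]
              simp only
              rw [← nr_eq, nr_neg]
              calc (T - σ) * nr (P.mulVec ((hess (p σ) (X σ)).mulVec (vort (u σ) (X σ))))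
                  ≤ (T - σ) * (γ σ * ((Ymax u (cst P) σ + K) / a)) := by
                    gcongr
                    exact f1.trans (mul_le_mul_of_nonneg_left f2 f4)
                _ ≤ (T - σ) * (γ σ * ((N + K) / a)) := by gcongr
                _ = _ := by ring
          rw [intervalIntegral.integral_mul_const] at e2
          refine e2.trans ?_
          have e3 := hr2 τ ⟨hτ.1, hτT.le⟩
          have e4 : 0 ≤ (N + K) / a := by positivity
          calc (∫ σ in r..τ, (T - σ) * γ σ) * ((N + K) / a) ≤ a / 2 * ((N + K) / a) := by gcongr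
            _ = (N + K) / 2 := by field_simp
        have := norm_sub_norm_le (w τ) (w r)
        linarith
      -- `y / (T - τ)` has the derivative `w / (T - τ)²`
      set B : ℝ := W + (N + K) / 2 with hB
      have hne : ∀ τ ∈ Icc r t, T - τ ≠ 0 := fun τ hτ => (sub_pos.2 (hτ.2.trans_lt htT)).ne'
      have hinv : ∀ τ ∈ Icc r t, HasDerivWithinAt (fun τ : ℝ => (T - τ)⁻¹) (1 / (T - τ) ^ 2)
          (Icc r t) τ := by
        intro τ hτ
        have h1 : HasDerivAt (fun τ : ℝ => T - τ) (-1) τ := by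
          simpa using (hasDerivAt_id τ).const_sub T
        have h2 := (h1.inv (hne τ hτ)).hasDerivWithinAt (s := Icc r t)
        refine h2.congr_deriv ?_
        rw [neg_neg]
      have hz := image_norm_le_of_norm_deriv_right_le_deriv_boundary'
        (f := fun τ => (T - τ)⁻¹ • y τ) (f' := fun τ => (1 / (T - τ) ^ 2) • w τ)
        (a := r) (b := t)
        (B := fun τ => M0 / (T - r) + B * ((T - τ)⁻¹ - (T - r)⁻¹))
        (B' := fun τ => B * (1 / (T - τ) ^ 2)) ?_ ?_ ?_ ?_ ?_ ?_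
      · have h1 := hz (⟨ht.1, le_rfl⟩ : t ∈ Icc r t)
        have hTt : 0 < T - t := sub_pos.2 htT
        have hTr : 0 < T - r := sub_pos.2 hr.2
        have h1' : ‖(T - t)⁻¹ • y t‖ ≤ M0 / (T - r) + B * ((T - t)⁻¹ - (T - r)⁻¹) := h1
        have hyt : ‖y t‖ = nr (obs u (cst P) t x) := by
          rw [hy, nr_eq, ← hXx]
        rw [norm_smul, Real.norm_eq_abs, abs_of_pos (inv_pos.2 hTt), inv_mul_le_iff₀ hTt,
          hyt] at h1'
        clear h1
        have h1 := h1'
        refine h1.trans ?_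
        have e1 : (T - t) * (M0 / (T - r) + B * ((T - t)⁻¹ - (T - r)⁻¹))
            = B + (T - t) / (T - r) * (M0 - B) := by
          field_simp
          ring
        rw [e1]
        have e2 : M0 - B ≤ 0 := by
          rw [hB, hW]
          have : 0 ≤ T * M1 := by positivity
          have : 0 ≤ (N + K) / 2 := by positivity
          linarith
        have e3 : 0 ≤ (T - t) / (T - r) := by positivity
        nlinarith
      · exact ContinuousOn.smul (f := fun τ : ℝ => (T - τ)⁻¹) (g := y)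
          (fun τ hτ => (hinv τ hτ).continuousWithinAt) hyc
      · intro τ hτ
        have hτ' := Ico_subset_Icc_self hτ
        refine right_of_Icc hτ ?_
        refine ((hinv τ hτ').smul (hyd τ hτ')).congr_deriv ?_
        rw [hw]
        simp only [smul_add, smul_smul]
        have h1 := hne τ hτ'
        have h2 : 1 / (T - τ) ^ 2 * (T - τ) = (T - τ)⁻¹ := by
          field_simp
        rw [h2, add_comm]
      · simp only [sub_self, mul_zero, add_zero]
        have hTr : 0 < T - r := sub_pos.2 hr.2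
        rw [norm_smul, Real.norm_eq_abs, abs_of_pos (inv_pos.2 hTr), inv_mul_eq_div]
        have e1 : ‖y r‖ ≤ M0 := by
          rw [hy, ← nr_eq]
          exact hM0 r ⟨hr.1.le, le_rfl⟩ _
        gcongr
      · refine continuousOn_const.add (continuousOn_const.mul (ContinuousOn.sub ?_ continuousOn_const))
        exact fun τ hτ => (hinv τ hτ).continuousWithinAt
      · intro τ hτ
        have hτ' := Ico_subset_Icc_self hτ
        exact right_of_Icc hτ (((hinv τ hτ').sub_const _).const_mul B |>.const_add _)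
      · intro τ hτ
        have hτ' := Ico_subset_Icc_self hτ
        rw [norm_smul, Real.norm_eq_abs, abs_of_nonneg (by positivity), mul_comm]
        have := hwb τ hτ'
        gcongr
    have h1 : N ≤ W + (N + K) / 2 := ciSup_le fun t => ciSup_le fun x => hmain t.1 t.2 x
    have h2 := hqN b ⟨hb.1, le_rfl⟩
    linarith
  set Y : ℝ := max M0 (2 * W + K) with hYdef
  have hYall : ∀ t ∈ Ico s T, Ymax u (cst P) t ≤ Y := by
    intro t ht
    rcases le_or_gt r t with h1 | h1
    · exact (hY t ⟨h1, ht.2⟩).trans (le_max_right _ _)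
    · exact (ciSup_le fun x => hM0 t ⟨ht.1, h1.le⟩ x).trans (le_max_left _ _)
  have hY0 : 0 ≤ Y := hM00.trans (le_max_left _ _)
  have hYa : Y ≤ (Y + K) / a := by
    rw [le_div_iff₀ ha]
    nlinarith
  have hae : ∀ᵐ t, t ∈ Ioo s T → ∀ x, nrm (vort (u t) x) ≤ (Y + K) / a := by
    filter_upwards [hyp] with t ht htI z
    obtain ⟨x, hx, -⟩ := ht htI
    have htT : t ∈ Ioo 0 T := ⟨hs.1.trans htI.1, htI.2⟩
    have h8 := visible_le h hG htT ha ha1 hK.le hΛK hx
    refine (hx.1 z).trans (h8.trans ?_)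
    have := hYall t ⟨htI.1.le, htI.2⟩
    gcongr
  refine ⟨⟨(Y + K) / a, fun t ht x => ?_, hae⟩, ?_⟩
  · have htT : t ∈ Ioo 0 T := ⟨hs.1.trans_le ht.1, ht.2⟩
    exact ((le_Ymax h hG htT x).trans (hYall t ht)).trans hYa
  · refine bkm_of_ae h.sol hs (B := fun _ => (Y + K) / a) ?_ hae
    rw [setLIntegral_const, Real.volume_Ioo]
    exact ENNReal.mul_lt_top ENNReal.ofReal_lt_top ENNReal.ofReal_lt_top

end Pool.Agent.Helper29.Vis
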