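import Pool.Agent.Helper29.Vis.Two

/-!
# A constant matrix: second order comparison with the pressure
-/

set_option autoImplicit false

open MeasureTheory Set Filter
open scoped ENNReal NNReal Topology

namespace Pool.Agent.Helper29.Vis

open Pool.Agent.H708R2.EulerSign Pool.Agent.H708R2.EulerTypeI Pool.Agent.W786.Max

variable {T : ℝ} {u : ℝ → V → V} {p : ℝ → V → ℝ} {n : ℕ} {P : Matrix (Fin n) (Fin 3) ℝ}

/-- The constant field. -/
def cst (P : Matrix (Fin n) (Fin 3) ℝ) : ℝ → V → Matrix (Fin n) (Fin 3) ℝ := fun _ _ => P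

lemma cst_field (T : ℝ) (P : Matrix (Fin n) (Fin 3) ℝ) : IsField T (cst P) :=
  ⟨fun _ _ => contDiffOn_const, fun _ _ _ _ => rfl⟩

lemma obs_cst (t : ℝ) (x : V) : obs u (cst P) t x = P.mulVec (vort (u t) x) := rfl

lemma rate_cst (t : ℝ) (x : V) :
    rate u (cst P) t x = P.mulVec ((grad (u t) x).mulVec (vort (u t) x)) := by
  have h1 : matD u (cst P) t x = 0 := by
    ext i j
    simp [matD, cst]
  unfold rate
  rw [h1, zero_add, Matrix.mulVec_mulVec]
  rfl

/-- The second derivative of `P ω` along a trajectory. -/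
lemma obs_deriv2 (h : IsC2Solution T u p) {X : ℝ → V} {a b : ℝ} (hX : IsTraj u X a b)
    (hab : Icc a b ⊆ Ioo 0 T) {t : ℝ} (ht : t ∈ Icc a b) :
    HasDerivWithinAt (fun t => rate u (cst P) t (X t))
      (-P.mulVec ((hess (p t) (X t)).mulVec (vort (u t) (X t)))) (Icc a b) t := by
  have h1 := fun j => hasDerivWithinAt_pi.1 (vort_deriv2 h hX hab ht) j
  rw [hasDerivWithinAt_pi]
  intro i
  have h2 : HasDerivWithinAt
      (fun t => ∑ j, P i j * (grad (u t) (X t)).mulVec (vort (u t) (X t)) j)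
      (∑ j, P i j * (-(hess (p t) (X t)).mulVec (vort (u t) (X t))) j) (Icc a b) t :=
    HasDerivWithinAt.fun_sum fun j _ => (h1 j).const_mul (P i j)
  have h3 : (fun t => rate u (cst P) t (X t) i)
      = fun t => ∑ j, P i j * (grad (u t) (X t)).mulVec (vort (u t) (X t)) j := by
    funext t
    rw [rate_cst]
    rfl
  rw [h3]
  refine h2.congr_deriv ?_
  simp only [Pi.neg_apply, mul_neg, Finset.sum_neg_distrib]
  rfl

lemma nr_neg (y : Fin n → ℝ) : nr (-y) = nr y := by
  unfold nr; simp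

/-- A step of the second order comparison. -/
lemma comp_aux {E : Type*} [NormedAddCommGroup E] [NormedSpace ℝ E] {a b : ℝ} (hab : a ≤ b)
    {y y1 y2 : ℝ → E} {R R1 R2 : ℝ → ℝ} {C M : ℝ}
    (hy : ∀ t ∈ Icc a b, HasDerivWithinAt y (y1 t) (Icc a b) t)
    (hy1 : ∀ t ∈ Icc a b, HasDerivWithinAt y1 (y2 t) (Icc a b) t)
    (hR : ∀ t ∈ Icc a b, HasDerivWithinAt R (R1 t) (Icc a b) t)
    (hR1 : ∀ t ∈ Icc a b, HasDerivWithinAt R1 (R2 t) (Icc a b) t)
    (hy2 : ∀ t ∈ Icc a b, ‖y2 t‖ ≤ M * R2 t) (h1 : ‖y1 a‖ ≤ C * R1 a) :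
    ‖y b‖ ≤ ‖y a‖ + (C - M) * R1 a * (b - a) + M * (R b - R a) := by
  have hyc : ContinuousOn y (Icc a b) := fun t ht => (hy t ht).continuousWithinAt
  have hRc : ContinuousOn R (Icc a b) := fun t ht => (hR t ht).continuousWithinAt
  have hy1c : ContinuousOn y1 (Icc a b) := fun t ht => (hy1 t ht).continuousWithinAt
  have hR1c : ContinuousOn R1 (Icc a b) := fun t ht => (hR1 t ht).continuousWithinAt
  have hb1 : ∀ t ∈ Icc a b, ‖y1 t‖ ≤ C * R1 a + M * (R1 t - R1 a) := by
    refine image_norm_le_of_norm_deriv_right_le_deriv_boundary' hy1c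
      (fun t ht => right_of_Icc ht (hy1 t (Ico_subset_Icc_self ht)))
      (B' := fun t => M * R2 t) (by simpa using h1) (by fun_prop)
      (fun t ht => right_of_Icc ht ?_) (fun t ht => hy2 t (Ico_subset_Icc_self ht))
    have := ((hR1 t (Ico_subset_Icc_self ht)).sub_const (R1 a)).const_mul M
    exact this.const_add _
  have hb0 : ∀ t ∈ Icc a b, ‖y t‖ ≤ ‖y a‖ + (C - M) * R1 a * (t - a) + M * (R t - R a) := by
    refine image_norm_le_of_norm_deriv_right_le_deriv_boundary' hyc
      (fun t ht => right_of_Icc ht (hy t (Ico_subset_Icc_self ht)))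
      (B' := fun t => (C - M) * R1 a + M * R1 t) (by simp) (by fun_prop)
      (fun t ht => right_of_Icc ht ?_) ?_
    · have e1 := ((hR t (Ico_subset_Icc_self ht)).sub_const (R a)).const_mul M
      have e2 : HasDerivWithinAt (fun t => ‖y a‖ + (C - M) * R1 a * (t - a))
          ((C - M) * R1 a) (Icc a b) t := by
        have := (((hasDerivAt_id t).sub_const a).const_mul ((C - M) * R1 a)).const_add ‖y a‖
        simpa using this.hasDerivWithinAt
      exact e2.add e1
    · intro t ht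
      refine (hb1 t (Ico_subset_Icc_self ht)).trans (le_of_eq ?_)
      ring
  exact hb0 b ⟨hab, le_rfl⟩

/-- The second order comparison for the maximum of `P ω`. -/
theorem second_comp (h : IsC2Solution T u p) {s K : ℝ} (hs : s ∈ Ioo 0 T) (hK : 0 ≤ K)
    {R R1 R2 : ℝ → ℝ}
    (hR : ∀ t ∈ Ico s T, HasDerivAt R (R1 t) t) (hR1 : ∀ t ∈ Ico s T, HasDerivAt R1 (R2 t) t)
    (hRpos : ∀ t ∈ Ico s T, 0 < R t) (hR1pos : ∀ t ∈ Ico s T, 0 < R1 t)
    (hR2 : ∀ t ∈ Ico s T, 0 ≤ R2 t)
    (hyp : ∀ t ∈ Ico s T, ∀ x, nr (P.mulVec ((hess (p t) x).mulVec (vort (u t) x)))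
      ≤ R2 t / R t * (Ymax u (cst P) t + K)) :
    ∃ C : ℝ, 0 ≤ C ∧ ∀ t ∈ Ico s T, Ymax u (cst P) t + K ≤ C * R t := by
  have hG := cst_field T P
  obtain ⟨M1, hM10, hM1⟩ := nr_bound (f := fun t x => rate u (cst P) t x) hs.1 hs.2
    (fun i => rate_contOn h hG i) (fun t ht => rate_periodic h hG ht)
  have hI0 : s ∈ Ico s T := ⟨le_rfl, hs.2⟩
  have hRs := hRpos s hI0
  have hR1s := hR1pos s hI0
  have hYs := Ymax_nonneg (u := u) (G := cst P) s
  set C : ℝ := (Ymax u (cst P) s + K) / R s + M1 / R1 s with hC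
  have hC0 : 0 ≤ C := by positivity
  refine ⟨C, hC0, fun b hb => ?_⟩
  have hsub : Icc s b ⊆ Ico s T := Icc_subset_Ico_right hb.2
  -- the comparison function is nondecreasing
  have hmono : MonotoneOn R (Icc s b) := by
    refine monotoneOn_of_deriv_nonneg (convex_Icc s b)
      (fun t ht => (hR t (hsub ht)).continuousAt.continuousWithinAt)
      (fun t ht => (hR t (hsub (interior_subset ht))).differentiableAt.differentiableWithinAt)
      (fun t ht => ?_)
    rw [(hR t (hsub (interior_subset ht))).deriv]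
    exact (hR1pos t (hsub (interior_subset ht))).le
  have hsI : s ∈ Icc s b := ⟨le_rfl, hb.1⟩
  have hbI : b ∈ Icc s b := ⟨hb.1, le_rfl⟩
  obtain ⟨C', hC'0, hC'⟩ := nr_bound (f := fun t x => obs u (cst P) t x) hs.1 hb.2
    (fun i => obs_contOn h hG i) (fun t ht => obs_periodic h hG ht)
  -- the supremum of the quotient
  set q : Icc s b → ℝ := fun t => (Ymax u (cst P) t + K) / R t with hq
  have hqb : BddAbove (range q) := by
    refine ⟨(C' + K) / R s, ?_⟩
    rintro _ ⟨⟨t, ht⟩, rfl⟩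
    have h1 : Ymax u (cst P) t ≤ C' := ciSup_le fun x => hC' t ht x
    have h2 : R s ≤ R t := hmono hsI ht ht.1
    show (Ymax u (cst P) t + K) / R t ≤ (C' + K) / R s
    have h3 := Ymax_nonneg (u := u) (G := cst P) t
    gcongr
  set M : ℝ := ⨆ t, q t with hM
  have : Nonempty (Icc s b) := ⟨⟨s, hsI⟩⟩
  have hqM : ∀ t ∈ Icc s b, Ymax u (cst P) t + K ≤ M * R t := by
    intro t ht
    have h1 : q ⟨t, ht⟩ ≤ M := le_ciSup hqb ⟨t, ht⟩
    have h2 := hRpos t (hsub ht)
    rw [hq] at h1
    simp only at h1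
    rwa [div_le_iff₀ h2] at h1
  have hMC : M ≤ C := by
    by_contra hcon
    push Not at hcon
    have hM0 : 0 < M := lt_of_le_of_lt hC0 hcon
    have hRb := hRpos b ⟨hb.1, hb.2⟩
    set ε : ℝ := (M - C) * R s / (2 * R b) with hε
    have hε0 : 0 < ε := by
      have : 0 < M - C := by linarith
      positivity
    obtain ⟨⟨r, hr⟩, hr1⟩ := exists_lt_of_lt_ciSup (show M - ε < ⨆ t, q t by rw [← hM]; linarith)
    have hrR := hRpos r (hsub hr)
    have hr2 : (M - ε) * R r < Ymax u (cst P) r + K := by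
      rw [hq] at hr1
      simp only at hr1
      rwa [lt_div_iff₀ hrR] at hr1
    have hr3 : (M - ε) * R r - K < Ymax u (cst P) r := by linarith
    obtain ⟨x, hx⟩ := exists_lt_of_lt_ciSup
      (show (M - ε) * R r - K < ⨆ x, nr (obs u (cst P) r x) from hr3)
    have hrT : r < T := hr.2.trans_lt hb.2
    obtain ⟨X, hX, hXx⟩ := exists_traj h.sol hs.1.le hr.1 hrT x
    have hsub1 : Icc s r ⊆ Ico s T := Icc_subset_Ico_right hrT
    have hsub2 : Icc s r ⊆ Ioo 0 T := fun t ht => ⟨hs.1.trans_le ht.1, ht.2.trans_lt hrT⟩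
    have hsub3 : Icc s r ⊆ Icc s b := Icc_subset_Icc_right hr.2
    have key := comp_aux (a := s) (b := r) hr.1
      (y := fun t => (WithLp.toLp 2 (obs u (cst P) t (X t)) : EuclideanSpace ℝ (Fin n)))
      (y1 := fun t => WithLp.toLp 2 (rate u (cst P) t (X t)))
      (y2 := fun t => WithLp.toLp 2 (-P.mulVec ((hess (p t) (X t)).mulVec (vort (u t) (X t)))))
      (R := R) (R1 := R1) (R2 := R2) (C := C) (M := M)
      (fun t ht => toLp_deriv (obs_deriv h hG hX hsub2 ht))
      (fun t ht => toLp_deriv (obs_deriv2 h hX hsub2 ht))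
      (fun t ht => (hR t (hsub1 ht)).hasDerivWithinAt)
      (fun t ht => (hR1 t (hsub1 ht)).hasDerivWithinAt) (fun t ht => ?_) ?_
    · simp only [← nr_eq] at key
      rw [hXx] at key
      have h1 : nr (obs u (cst P) s (X s)) ≤ Ymax u (cst P) s := le_Ymax h hG hs _
      have h2 : Ymax u (cst P) s + K ≤ C * R s := by
        rw [hC, add_mul, div_mul_cancel₀ _ hRs.ne']
        have : 0 ≤ M1 / R1 s * R s := by positivity
        linarith
      have h3 : (M - ε) * R r < C * R s + (C - M) * R1 s * (r - s) + M * (R r - R s) := by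
        linarith
      have h4 : (M - C) * R s + (M - C) * R1 s * (r - s) < ε * R r := by nlinarith
      have h5 : 0 ≤ (M - C) * R1 s * (r - s) := by
        have : 0 < M - C := by linarith
        have : 0 ≤ r - s := sub_nonneg.2 hr.1
        positivity
      have h6 : ε * R r ≤ ε * R b := by
        have := hmono hr hbI hr.2
        gcongr
      have h7 : ε * R b = (M - C) * R s / 2 := by
        rw [hε]
        field_simp
      have h8 : 0 < (M - C) * R s := mul_pos (by linarith) hRs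
      linarith
    · rw [← nr_eq, nr_neg]
      have h1 := hyp t (hsub1 ht) (X t)
      have h2 := hqM t (hsub3 ht)
      have h3 := hRpos t (hsub1 ht)
      have h4 := hR2 t (hsub1 ht)
      refine h1.trans ?_
      calc R2 t / R t * (Ymax u (cst P) t + K) ≤ R2 t / R t * (M * R t) := by gcongr
        _ = M * R2 t := by field_simp
    · rw [← nr_eq]
      have h1 := hM1 s ⟨le_rfl, le_rfl⟩ (X s)
      rw [hC, add_mul, div_mul_cancel₀ _ hR1s.ne']
      have : 0 ≤ (Ymax u (cst P) s + K) / R s * R1 s := by positivity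
      linarith
  refine (hqM b hbI).trans ?_
  exact mul_le_mul_of_nonneg_right hMC (hRpos b hb).le

end Pool.Agent.Helper29.Vis
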