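import Pool.Agent.Helper29.Vis.Press

/-!
# Vortex segments, observed by a constant matrix
-/

set_option autoImplicit false

open MeasureTheory Set Filter
open scoped ENNReal NNReal Topology

namespace Pool.Agent.Helper29.Vis

open Pool.Agent.H708R2.EulerSign Pool.Agent.H708R2.EulerTypeI Pool.Agent.W786.Max
open Pool.Agent.GR.Flow Q177.EF Pool.Agent.W786.Dir

variable {T : ℝ} {u : ℝ → V → V} {p : ℝ → V → ℝ} {n : ℕ} {P : Matrix (Fin n) (Fin 3) ℝ}

/-- The vortex line of `v` through some point has a segment with the parameter `s > 0`, for which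
`P` times the displacement of its end points has at least the size `D` and at least the size
`c s sup |ω|`. -/
def HasSeg (v : V → V) (P : Matrix (Fin n) (Fin 3) ℝ) (c D : ℝ) : Prop :=
  ∃ (γ : ℝ → V) (s : ℝ), 0 < s ∧ (∀ r, HasDerivAt γ (vort v (γ r)) r) ∧
    c * (s * vmax v) ≤ nr (P.mulVec (γ s - γ 0)) ∧ D ≤ nr (P.mulVec (γ s - γ 0))

lemma mulVec_hasDerivAt (P : Matrix (Fin n) (Fin 3) ℝ) {f : ℝ → V} {f' : V} {t : ℝ}
    (hf : HasDerivAt f f' t) :
    HasDerivAt (fun t => (WithLp.toLp 2 (P.mulVec (f t)) : EuclideanSpace ℝ (Fin n)))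
      (WithLp.toLp 2 (P.mulVec f')) t := by
  have h1 := fun j => hasDerivAt_pi.1 hf j
  have h2 : HasDerivAt (fun t => P.mulVec (f t)) (P.mulVec f') t := by
    rw [hasDerivAt_pi]
    intro i
    have h3 : HasDerivAt (fun t => ∑ j, P i j * f t j) (∑ j, P i j * f' j) t :=
      HasDerivAt.fun_sum fun j _ => (h1 j).const_mul (P i j)
    exact h3
  rw [← hasDerivWithinAt_univ] at h2 ⊢
  exact toLp_deriv h2

lemma nr_incr {f f' : ℝ → V} {q : ℝ → ℝ} {a b : ℝ} (hab : a ≤ b)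
    (hf : ∀ t, HasDerivAt f (f' t) t) (hfc : Continuous f') (hq : IntervalIntegrable q volume a b)
    (h : ∀ t ∈ Icc a b, nr (P.mulVec (f' t)) ≤ q t) :
    nr (P.mulVec (f b - f a)) ≤ ∫ t in a..b, q t := by
  have hc : Continuous fun t => (WithLp.toLp 2 (P.mulVec (f' t)) : EuclideanSpace ℝ (Fin n)) := by
    refine (PiLp.continuous_toLp 2 _).comp (continuous_pi fun i => ?_)
    simp only [Matrix.mulVec, dotProduct]
    fun_prop
  have h1 : ∫ t in a..b, (WithLp.toLp 2 (P.mulVec (f' t)) : EuclideanSpace ℝ (Fin n))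
      = WithLp.toLp 2 (P.mulVec (f b)) - WithLp.toLp 2 (P.mulVec (f a)) :=
    intervalIntegral.integral_eq_sub_of_hasDerivAt (fun t _ => mulVec_hasDerivAt P (hf t))
      (hc.intervalIntegrable _ _)
  have h2 : nr (P.mulVec (f b - f a))
      = ‖∫ t in a..b, (WithLp.toLp 2 (P.mulVec (f' t)) : EuclideanSpace ℝ (Fin n))‖ := by
    rw [h1, ← WithLp.toLp_sub, ← nr_eq, Matrix.mulVec_sub]
  rw [h2]
  refine (intervalIntegral.norm_integral_le_integral_norm hab).trans ?_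
  refine intervalIntegral.integral_mono_on hab (hc.norm.intervalIntegrable _ _) hq fun t ht => ?_
  rw [← nr_eq]
  exact h t ht

lemma nr_sub_rev (x y : Fin n → ℝ) : nr x ≤ nr y + nr (x - y) := by
  rw [nr_eq, nr_eq, nr_eq, WithLp.toLp_sub]
  have := norm_sub_norm_le (WithLp.toLp 2 x : EuclideanSpace ℝ (Fin n)) (WithLp.toLp 2 y)
  linarith

/-- The displacement along vortex lines at two times. -/
theorem disp_P (h : IsC2Solution T u p) {a b : ℝ} (ha : 0 < a) (hab : a ≤ b) (hb : b < T)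
    {Φa Φb : ℝ → V → V} (hΦa : VortexFlow (u a) Φa) (hΦb : VortexFlow (u b) Φb)
    {U : ℝ → ℝ} (hUi : IntervalIntegrable U volume a b)
    (hU : ∀ t ∈ Icc a b, ∀ x y, nr (P.mulVec (u t x - u t y)) ≤ U t) (x : V) :
    ∃ y : V, ∀ s, nr (P.mulVec ((Φb s x - x) - (Φa s y - y))) ≤ ∫ τ in a..b, U τ := by
  obtain ⟨B, hB, hBu⟩ := exists_cut h ha hab hb
  obtain ⟨g, hg⟩ := exists_flow hB
  refine ⟨X g b a x, fun s => ?_⟩
  have hXj := X_c1 hB hg
  have hN : ∀ y : V, Continuous (fun τ : ℝ => B τ (X g b τ y)) := fun y => by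
    have h1 : Continuous (fun τ : ℝ => X g b τ y) :=
      hXj.continuous.comp (f := fun τ : ℝ => ((b, τ), y)) (by fun_prop)
    exact hB.c1.continuous.comp (f := fun τ : ℝ => (τ, X g b τ y)) (continuous_id.prodMk h1)
  have h1 := nr_incr (P := P) (f := fun τ => X g b τ (Φb s x) - X g b τ x)
    (f' := fun τ => B τ (X g b τ (Φb s x)) - B τ (X g b τ x)) (q := U) hab
    (fun τ => (X_deriv hg b τ (Φb s x)).sub (X_deriv hg b τ x))
    ((hN _).sub (hN _)) hUi (fun τ hτ => by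
      rw [hBu τ hτ]
      exact hU τ hτ _ _)
  have h2 : X g b b (Φb s x) - X g b b x = Φb s x - x := by
    rw [X_self hg, X_self hg]
  have h3 : X g b a (Φb s x) - X g b a x = Φa s (X g b a x) - X g b a x := by
    have h4 := commute h ha hab hb hB hBu hg hΦa.isFlowOf hΦb.isFlowOf s (X g b a x)
    rw [X_inv hB hg b a x] at h4
    rw [← h4, X_inv hB hg a b]
  rw [h2, h3] at h1
  exact h1

/-- One step. -/
theorem seg_stepP (h : IsC2Solution T u p) (hP : ∀ y : V, nr (P.mulVec y) ≤ nrm y) {a b : ℝ}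
    (ha : 0 < a) (hab : a ≤ b) (hb : b < T)
    {Φ : ℝ → V → V} (hΦ : VortexFlow (u b) Φ) {U : ℝ → ℝ} (hUi : IntervalIntegrable U volume a b)
    (hU : ∀ t ∈ Icc a b, ∀ x y, nr (P.mulVec (u t x - u t y)) ≤ U t) (x : V) (s : ℝ) :
    nr (P.mulVec (Φ s x - x)) ≤ |s| * vmax (u a) + ∫ τ in a..b, U τ := by
  have haI : a ∈ Ioo 0 T := ⟨ha, hab.trans_lt hb⟩
  obtain ⟨Φa, hΦa⟩ := exists_vflow h haI
  obtain ⟨y, hy⟩ := disp_P (P := P) h ha hab hb hΦa hΦ hUi hU x
  have h4 := nr_sub_rev (P.mulVec (Φ s x - x)) (P.mulVec (Φa s y - y))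
  have h5 := disp_le (vort_c1 (slice_two h haI)).continuous hΦa.isFlowOf
    (le_vmax h.sol ⟨haI.1.le, haI.2⟩) s y
  have h6 := hy s
  rw [Matrix.mulVec_sub P (Φ s x - x) (Φa s y - y)] at h6
  have h7 := hP (Φa s y - y)
  linarith

/-- The criterion with one vortex segment at each time. -/
theorem seg_critP (hT : 0 < T) (h : IsC2Solution T u p) (hP : ∀ y : V, nr (P.mulVec y) ≤ nrm y)
    {U : ℝ → ℝ} (hUi : ∀ a b, 0 < a → a ≤ b → b < T → IntervalIntegrable U volume a b)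
    (hU : ∀ t ∈ Ioo 0 T, ∀ x y, nr (P.mulVec (u t x - u t y)) ≤ U t)
    {c θ lam : ℝ} (hc : 0 < c) (hθ : 0 < θ) (hlam : 1 < lam) (hcl : 1 < c * θ * lam)
    (hyp : ∀ᶠ t in 𝓝[<] T, (T - t) ^ (-(1 / 2) : ℝ) < vmax (u t) →
      ∃ (s : ℝ) (Φ : ℝ → V → V) (x : V), 0 < s ∧ VortexFlow (u t) Φ ∧
        c * (s * vmax (u t)) ≤ nr (P.mulVec (Φ s x - x)) ∧
        ∫ τ in (T - lam * (T - t))..t, U τ ≤ (1 - θ) * nr (P.mulVec (Φ s x - x))) :
    (∃ C a : ℝ, a < 1 ∧ ∀ᶠ t in 𝓝[<] T, vmax (u t) ≤ C * (T - t) ^ (-a)) ∧ BKMFinite T u := by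
  have hμl : 1 / (c * θ) < lam := by
    rw [div_lt_iff₀ (by positivity)]; linarith
  have hev : ∀ᶠ t in 𝓝[<] T, 0 < T - lam * (T - t) := by
    have h1 : Tendsto (fun t : ℝ => T - lam * (T - t)) (𝓝 T) (𝓝 (T - lam * (T - T))) :=
      (by fun_prop : Continuous fun t : ℝ => T - lam * (T - t)).tendsto T
    rw [sub_self, mul_zero, sub_zero] at h1
    exact nhdsWithin_le_nhds (h1.eventually (lt_mem_nhds hT))
  obtain ⟨C, a, ha, hC0, t₀, ht₀, hb⟩ := iter (M := fun t => vmax (u t)) (T := T)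
    (lam := lam) (μ := 1 / (c * θ)) hT hlam (by positivity) hμl
    (fun t => vmax_nonneg _) (fun b hb => vmax_bound h.sol hb) (by
      filter_upwards [hyp, hev, self_mem_nhdsWithin] with t h1 h2 h3
      rcases le_or_gt (vmax (u t)) ((T - t) ^ (-(1 / 2) : ℝ)) with h4 | h4
      · exact le_max_of_le_right h4
      · refine le_max_of_le_left ?_
        obtain ⟨s, Φ, x, hs, hΦ, h5, h6⟩ := h1 h4
        have h3' : t < T := h3
        have hab : T - lam * (T - t) ≤ t := by nlinarith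
        have key := seg_stepP h hP h2 hab h3' hΦ (hUi _ _ h2 hab h3')
          (fun r hr => hU r ⟨h2.trans_le hr.1, hr.2.trans_lt h3'⟩) x s
        rw [abs_of_pos hs] at key
        have h7 : θ * nr (P.mulVec (Φ s x - x)) ≤ s * vmax (u (T - lam * (T - t))) := by linarith
        have h8 : θ * (c * (s * vmax (u t))) ≤ s * vmax (u (T - lam * (T - t))) :=
          (mul_le_mul_of_nonneg_left h5 hθ.le).trans h7
        have h9 : c * θ * vmax (u t) ≤ vmax (u (T - lam * (T - t))) := by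
          have : s * (c * θ * vmax (u t)) ≤ s * vmax (u (T - lam * (T - t))) := by
            calc s * (c * θ * vmax (u t)) = θ * (c * (s * vmax (u t))) := by ring
              _ ≤ _ := h8
          exact le_of_mul_le_mul_left this hs
        rw [div_mul_eq_mul_div, one_mul, le_div_iff₀ (by positivity)]
        linarith)
  refine ⟨⟨C, a, ha, ?_⟩, bkm_of_pow (C := C) h.sol ht₀ ha fun t ht x => ?_⟩
  · filter_upwards [Ico_mem_nhdsLT ht₀.2] with t ht
    exact hb t ht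
  · exact (le_vmax h.sol ⟨ht₀.1.le.trans ht.1, ht.2⟩ x).trans (hb t ht)

lemma flow_of_line {t : ℝ} (h : IsC2Solution T u p)
    (ht : t ∈ Ioo 0 T) {γ : ℝ → V} (hγ : ∀ r, HasDerivAt γ (vort (u t) (γ r)) r) :
    ∃ Φ, VortexFlow (u t) Φ ∧ ∀ s, Φ s (γ 0) = γ s := by
  obtain ⟨Φ, hΦ⟩ := exists_vflow h ht
  refine ⟨Φ, hΦ, fun s => ?_⟩
  obtain ⟨K, hK⟩ := (fld_at h ht).lip
  have hKb : LipschitzWith K (vort (u t)) := by
    intro x y
    have := hK (0, x) (0, y)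
    simpa [Prod.edist_eq] using this
  have h1 : (fun s => Φ s (γ 0)) = γ := by
    refine ODE_solution_unique_univ (v := fun _ => vort (u t)) (s := fun _ => univ) (K := K)
      (t₀ := 0) (fun t => hKb.lipschitzOnWith) (fun s => ⟨hΦ.2 s _, trivial⟩)
      (fun s => ⟨hγ s, trivial⟩) (hΦ.1 _)
  exact congrFun h1 s

/-- The criterion for segments, with the integral of the velocity. -/
theorem seg_final (hT : 0 < T) (h : IsC2Solution T u p) (hP : ∀ y : V, nr (P.mulVec y) ≤ nrm y)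
    {U D : ℝ → ℝ} (hUi : ∀ a b, 0 < a → a ≤ b → b < T → IntervalIntegrable U volume a b)
    (hU : ∀ t ∈ Ioo 0 T, ∀ x y, nr (P.mulVec (u t x - u t y)) ≤ U t)
    {c θ lam : ℝ} (hc : 0 < c) (hθ : 0 < θ) (hθ1 : θ ≤ 1) (hlam : 1 < lam) (hcl : 1 < c * θ * lam)
    (hyp : ∀ᶠ t in 𝓝[<] T, (T - t) ^ (-(1 / 2) : ℝ) < vmax (u t) →
      HasSeg (u t) P c (D t) ∧ ∫ τ in (T - lam * (T - t))..t, U τ ≤ (1 - θ) * D t) :
    (∃ C a : ℝ, a < 1 ∧ ∀ᶠ t in 𝓝[<] T, vmax (u t) ≤ C * (T - t) ^ (-a)) ∧ BKMFinite T u := by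
  have hT0 : ∀ᶠ t in 𝓝[<] T, t ∈ Ioo 0 T := Ioo_mem_nhdsLT hT
  refine seg_critP hT h hP hUi hU hc hθ hlam hcl ?_
  filter_upwards [hyp, hT0] with t h1 ht h2
  obtain ⟨⟨γ, s, hs0, hγ, h3, h4⟩, h5⟩ := h1 h2
  obtain ⟨Φ, hΦ, hΦγ⟩ := flow_of_line h ht hγ
  refine ⟨s, Φ, γ 0, hs0, hΦ, ?_, ?_⟩
  · rw [hΦγ]; exact h3
  · rw [hΦγ]
    exact h5.trans (mul_le_mul_of_nonneg_left h4 (by linarith))

end Pool.Agent.Helper29.Vis
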