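import Pool.Agent.Helper29.Vis.Exam

/-!
# The threshold in the two point criterion
-/

set_option autoImplicit false

open MeasureTheory Set Filter
open scoped ENNReal NNReal Topology

namespace Pool.Agent.Helper29.Vis

open Pool.Agent.H708R2.EulerSign Pool.Agent.H708R2.EulerTypeI Pool.Agent.W786.Max

variable {T : ℝ} {u : ℝ → V → V} {p : ℝ → V → ℝ} {n : ℕ}
  {G : ℝ → V → Matrix (Fin n) (Fin 3) ℝ}

lemma rate_integrable {t₀ : ℝ} (ht₀ : t₀ ∈ Ioo 0 T) {γ : ℝ}
    (hγ : 1 < γ) (hLpos : ∀ t ∈ Ico t₀ T, 0 < Lf T t) :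
    IntegrableOn (fun t => 1 / (T - t) * (Lf T t) ^ (-γ)) (Ioo t₀ T) := by
  have hint : IntegrableOn (fun t => 1 / (T - t) * (Lf T t) ^ (-γ)) (Ioc t₀ T) := by
    refine intervalIntegral.integrableOn_deriv_of_nonneg
      (g := fun t => -(Lf T t) ^ (1 - γ) / (γ - 1)) ?_ ?_ ?_
    · intro t ht
      rcases ht.2.lt_or_eq with hlt | heq
      · have hL := hLpos t ⟨ht.1, hlt⟩
        have h1 : HasDerivAt (fun t => -(Lf T t) ^ (1 - γ) / (γ - 1)) _ t :=
          (((Lf_hasDerivAt hlt).rpow_const (p := 1 - γ) (Or.inl hL.ne')).neg).div_const (γ - 1)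
        exact h1.continuousAt.continuousWithinAt
      · subst heq
        rw [← Ico_insert_right ht₀.2.le, continuousWithinAt_insert_self]
        have hLT : Lf t t = 0 := by simp [Lf]
        have h2 : Filter.Tendsto (fun s => -(Lf t s) ^ (1 - γ) / (γ - 1)) (𝓝[<] t)
            (𝓝 (-0 / (γ - 1))) := by
          have h3 : Filter.Tendsto (fun s => (Lf t s) ^ (-(γ - 1))) (𝓝[<] t) (𝓝 0) :=
            (tendsto_rpow_neg_atTop (sub_pos.2 hγ)).comp (tendsto_Lf t)
          have e : (1 - γ) = -(γ - 1) := by ring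
          rw [e]
          exact h3.neg.div_const _
        show Filter.Tendsto _ (𝓝[Ico t₀ t] t) (𝓝 (-(Lf t t) ^ (1 - γ) / (γ - 1)))
        rw [hLT, Real.zero_rpow (by linarith)]
        exact h2.mono_left (nhdsWithin_mono _ fun s hs => hs.2)
    · intro t ht
      have hL := hLpos t ⟨ht.1.le, ht.2⟩
      have h1 := (((Lf_hasDerivAt ht.2).rpow_const (p := 1 - γ) (Or.inl hL.ne')).neg).div_const
        (γ - 1)
      refine h1.congr_deriv ?_
      have e : 1 - γ - 1 = -γ := by ring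
      have e2 : γ - 1 ≠ 0 := by linarith
      rw [e]
      field_simp
      ring
    · intro t ht
      have hL := hLpos t ⟨ht.1.le, ht.2⟩
      have : 0 < T - t := sub_pos.2 ht.2
      positivity
  exact hint.mono_set Ioo_subset_Ioc_self

/-- The threshold of the two point criterion. -/
theorem two_point_threshold (hT : 0 < T) (h : IsC2Solution T u p) (hG : IsField T G)
    {a κ Λ : ℝ} (ha : 0 < a) (ha1 : a ≤ 1) (hκ : 1 < κ)
    (hyp : ∀ᶠ t in 𝓝[<] T, ∃ x y, Visible u G t a Λ x ∧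
      SlowAt u G t (a * ((1 - κ / Real.log (1 / (T - t))) / (T - t)) * nrm (vort (u t) x)) y) :
    (∃ C : ℝ, ∀ᶠ t in 𝓝[<] T, ∀ x,
      nrm (vort (u t) x) ≤ C / ((T - t) * Real.log (1 / (T - t)) ^ κ)) ∧ BKMFinite T u := by
  obtain ⟨t₀, ht₀, hP⟩ := exists_start hT hyp (max 1 κ)
  have hL : ∀ t ∈ Ico t₀ T, 1 ≤ Lf T t ∧ κ ≤ Lf T t := fun t ht =>
    ⟨(le_max_left _ _).trans (hP t ht).2, (le_max_right _ _).trans (hP t ht).2⟩
  have hLpos : ∀ t ∈ Ico t₀ T, 0 < Lf T t := fun t ht => lt_of_lt_of_le one_pos (hL t ht).1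
  have hκL : ∀ t ∈ Ico t₀ T, κ / Lf T t ≤ 1 := fun t ht =>
    (div_le_one (hLpos t ht)).2 (hL t ht).2
  set r : ℝ → ℝ := fun t => (1 - κ / Lf T t) / (T - t) with hr
  have hr0 : ∀ t ∈ Ico t₀ T, 0 ≤ r t := by
    intro t ht
    have h1 := hκL t ht
    have h2 : 0 < T - t := sub_pos.2 ht.2
    exact div_nonneg (by linarith) h2.le
  have hRd : ∀ t ∈ Ico t₀ T, HasDerivAt (fun t => Real.log (Rf T 1 κ t)) (r t) t := by
    intro t ht
    have h1 := (Rf_hasDerivAt (θ := 1) (β := κ) ht.2 (hLpos t ht)).log (Rf_pos T 1 κ t).ne'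
    refine h1.congr_deriv ?_
    rw [mul_div_cancel_left₀ _ (Rf_pos T 1 κ t).ne']
  have hrc : ContinuousOn r (Ico t₀ T) := by
    have h1 : ContinuousOn (Lf T) (Ico t₀ T) := fun t ht =>
      (Lf_hasDerivAt ht.2).continuousAt.continuousWithinAt
    refine ContinuousOn.div (continuousOn_const.sub (continuousOn_const.div h1
      fun t ht => (hLpos t ht).ne')) (by fun_prop) fun t ht => (sub_pos.2 ht.2).ne'
  have hint : ∀ b < T, IntegrableOn (fun t => a * r t / a) (Ioo t₀ b) := by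
    intro b hb
    have e : (fun t => a * r t / a) = r := by
      funext t
      rw [mul_div_assoc, mul_div_cancel₀ _ ha.ne']
    rw [e]
    rcases le_or_gt b t₀ with h1 | h1
    · rw [Ioo_eq_empty (not_lt.2 h1)]
      exact integrableOn_empty
    · exact ((hrc.mono (Icc_subset_Ico_right hb)).integrableOn_Icc).mono_set Ioo_subset_Icc_self
  have hae : ∀ᵐ t, t ∈ Ioo t₀ T → ∃ x y, Visible u G t a Λ x ∧
      SlowAt u G t (a * r t * nrm (vort (u t) x)) y := by
    refine Eventually.of_forall fun t ht => ?_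
    have h1 := (hP t ⟨ht.1.le, ht.2⟩).1
    rw [← Lf_eq] at h1
    exact h1
  have key := two_point h hG (a := fun _ => a) (δ := fun t => a * r t) (Λ := Λ) ht₀
    (fun _ _ => ⟨ha, ha1⟩) (fun t ht => mul_nonneg ha.le (hr0 t ⟨ht.1.le, ht.2⟩)) hint hae
  -- the exponential of the integral
  have hexp : ∀ t ∈ Ico t₀ T, Real.exp (∫ τ in t₀..t, a * r τ / a)
      = Rf T 1 κ t / Rf T 1 κ t₀ := by
    intro t ht
    have e : (fun t => a * r t / a) = r := by
      funext t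
      rw [mul_div_assoc, mul_div_cancel₀ _ ha.ne']
    have h1 : ∫ τ in t₀..t, a * r τ / a
        = Real.log (Rf T 1 κ t) - Real.log (Rf T 1 κ t₀) := by
      have h2 : ∫ τ in t₀..t, a * r τ / a = ∫ τ in t₀..t, r τ :=
        congrArg (fun f : ℝ → ℝ => ∫ τ in t₀..t, f τ) e
      rw [h2]
      refine intervalIntegral.integral_eq_sub_of_hasDerivAt
        (f := fun t => Real.log (Rf T 1 κ t)) (fun τ hτ => ?_) ?_
      · rw [uIcc_of_le ht.1] at hτ
        exact hRd τ ⟨hτ.1, hτ.2.trans_lt ht.2⟩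
      · refine ContinuousOn.intervalIntegrable ?_
        rw [uIcc_of_le ht.1]
        exact hrc.mono (Icc_subset_Ico_right ht.2)
    rw [h1, Real.exp_sub, Real.exp_log (Rf_pos _ _ _ _), Real.exp_log (Rf_pos _ _ _ _)]
  have hform : ∀ t ∈ Ico t₀ T, Rf T 1 κ t = 1 / (T - t) * (Lf T t) ^ (-κ) := by
    intro t ht
    have h1 := hLpos t ht
    have h4 : 0 < T - t := sub_pos.2 ht.2
    unfold Rf
    rw [one_mul, Real.exp_sub, mul_comm κ, ← Real.rpow_def_of_pos h1, Real.rpow_neg h1.le,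
      div_eq_mul_inv]
    congr 1
    rw [Lf, Real.exp_neg, Real.exp_log h4, one_div]
  have hR0 := Rf_pos T 1 κ t₀
  constructor
  · obtain ⟨⟨C, hC, -⟩, -⟩ := key
    set K : ℝ := max Λ 1 with hKdef
    have hK : 0 < K := lt_of_lt_of_le one_pos (le_max_right _ _)
    have hΛK : Λ ≤ K := le_max_left _ _
    have hR1 : ∀ t ∈ Ico t₀ T, Rf T 1 κ t₀ ≤ Rf T 1 κ t := by
      intro t ht
      have hmono : MonotoneOn (Rf T 1 κ) (Icc t₀ t) := by
        refine monotoneOn_of_deriv_nonneg (convex_Icc t₀ t) (fun τ hτ =>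
          (Rf_hasDerivAt (hτ.2.trans_lt ht.2)
            (hLpos τ ⟨hτ.1, hτ.2.trans_lt ht.2⟩)).continuousAt.continuousWithinAt)
          (fun τ hτ => ?_) (fun τ hτ => ?_)
        · rw [interior_Icc] at hτ
          exact (Rf_hasDerivAt (hτ.2.trans ht.2)
            (hLpos τ ⟨hτ.1.le, hτ.2.trans ht.2⟩)).differentiableAt.differentiableWithinAt
        · rw [interior_Icc] at hτ
          have hτ' : τ ∈ Ico t₀ T := ⟨hτ.1.le, hτ.2.trans ht.2⟩
          rw [(Rf_hasDerivAt hτ'.2 (hLpos τ hτ')).deriv]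
          exact mul_nonneg (Rf_pos _ _ _ _).le (hr0 τ hτ')
      exact hmono ⟨le_rfl, ht.1⟩ ⟨ht.1, le_rfl⟩ ht.1
    refine ⟨(|C| + K) / (a * Rf T 1 κ t₀), ?_⟩
    filter_upwards [Ico_mem_nhdsLT ht₀.2] with t ht z
    obtain ⟨x, y, hx, -⟩ := (hP t ht).1
    have htT : t ∈ Ioo 0 T := ⟨ht₀.1.trans_le ht.1, ht.2⟩
    have h1 := visible_le h hG htT ha ha1 hK.le hΛK hx
    have h2 : Ymax u G t ≤ |C| * (Rf T 1 κ t / Rf T 1 κ t₀) := by
      refine ciSup_le fun x => (hC t ht x).trans ?_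
      rw [hexp t ht]
      have := (div_pos (Rf_pos T 1 κ t) hR0).le
      gcongr
      exact le_abs_self C
    have h3 : K ≤ K * (Rf T 1 κ t / Rf T 1 κ t₀) := by
      have : 1 ≤ Rf T 1 κ t / Rf T 1 κ t₀ := (one_le_div hR0).2 (hR1 t ht)
      nlinarith
    have h4 : 0 < T - t := sub_pos.2 ht.2
    have h5 : 0 < (Lf T t) ^ κ := Real.rpow_pos_of_pos (hLpos t ht) _
    calc nrm (vort (u t) z) ≤ nrm (vort (u t) x) := hx.1 z
      _ ≤ (Ymax u G t + K) / a := h1
      _ ≤ (|C| * (Rf T 1 κ t / Rf T 1 κ t₀) + K * (Rf T 1 κ t / Rf T 1 κ t₀)) / a := by gcongr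
      _ = (|C| + K) / (a * Rf T 1 κ t₀) * Rf T 1 κ t := by field_simp
      _ = (|C| + K) / (a * Rf T 1 κ t₀) / ((T - t) * Real.log (1 / (T - t)) ^ κ) := by
        rw [hform t ht, ← Lf_eq, Real.rpow_neg (hLpos t ht).le]
        field_simp
  · refine key.2 ?_
    have h1 : ∫⁻ t in Ioo t₀ T, ENNReal.ofReal (Real.exp (∫ τ in t₀..t, a * r τ / a) / a)
        = ∫⁻ t in Ioo t₀ T, ENNReal.ofReal
          (1 / (a * Rf T 1 κ t₀) * (1 / (T - t) * (Lf T t) ^ (-κ))) := by
      refine setLIntegral_congr_fun measurableSet_Ioo fun t ht => ?_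
      have htI : t ∈ Ico t₀ T := ⟨ht.1.le, ht.2⟩
      rw [hexp t htI, ← hform t htI]
      congr 1
      field_simp
    rw [h1]
    exact ((rate_integrable ht₀ hκ hLpos).const_mul _).lintegral_lt_top

end Pool.Agent.Helper29.Vis
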