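import Pool.Agent.Helper29.Vis.Growth

/-!
# The two point criterion
-/

set_option autoImplicit false

open MeasureTheory Set Filter
open scoped ENNReal NNReal Topology

namespace Pool.Agent.Helper29.Vis

open Pool.Agent.H708R2.EulerSign Pool.Agent.H708R2.EulerTypeI Pool.Agent.W786.Max

variable {T : ℝ} {u : ℝ → V → V} {p : ℝ → V → ℝ} {n : ℕ}
  {G : ℝ → V → Matrix (Fin n) (Fin 3) ℝ}

lemma visible_le (h : IsC2Solution T u p) (hG : IsField T G) {t a Λ K : ℝ} (ht : t ∈ Ioo 0 T)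
    (ha : 0 < a) (ha1 : a ≤ 1) (hK : 0 ≤ K) (hΛK : Λ ≤ K) {x : V} (hx : Visible u G t a Λ x) :
    nrm (vort (u t) x) ≤ (Ymax u G t + K) / a := by
  rw [le_div_iff₀ ha]
  have hY := Ymax_nonneg (u := u) (G := G) t
  rcases hx.2 with h1 | h1
  · calc nrm (vort (u t) x) * a ≤ K * a := by gcongr; exact h1.trans hΛK
      _ ≤ K * 1 := by gcongr
      _ ≤ Ymax u G t + K := by linarith
  · have h2 := le_Ymax h hG ht x
    linarith

/-- The Beale-Kato-Majda integral is finite if the vorticity has an integrable bound almost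
everywhere near the final time. -/
lemma bkm_of_ae (h : IsClassicalSolution (Ico 0 T) u p) {s : ℝ} (hs : s ∈ Ioo 0 T) {B : ℝ → ℝ}
    (hB : ∫⁻ t in Ioo s T, ENNReal.ofReal (B t) < ∞)
    (hle : ∀ᵐ t, t ∈ Ioo s T → ∀ x, nrm (vort (u t) x) ≤ B t) : BKMFinite T u := by
  obtain ⟨M, hM0, hM⟩ := vort_bound h hs.2
  have hfin2 : ∫⁻ t in Ioo s T, ⨆ x, ENNReal.ofReal (nrm (vort (u t) x)) < ∞ := by
    refine lt_of_le_of_lt ?_ hB
    refine lintegral_mono_ae ?_
    rw [ae_restrict_iff' measurableSet_Ioo]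
    filter_upwards [hle] with t ht htI
    exact iSup_le fun x => ENNReal.ofReal_le_ofReal (ht htI x)
  have hfin1 : ∫⁻ t in Ioc 0 s, ⨆ x, ENNReal.ofReal (nrm (vort (u t) x)) < ∞ := by
    have h1 : ∫⁻ t in Ioc 0 s, ⨆ x, ENNReal.ofReal (nrm (vort (u t) x))
        ≤ ∫⁻ _ in Ioc 0 s, ENNReal.ofReal M := by
      refine setLIntegral_mono' measurableSet_Ioc fun t ht => ?_
      exact iSup_le fun x => ENNReal.ofReal_le_ofReal (hM t ⟨ht.1.le, ht.2⟩ x).1
    refine h1.trans_lt ?_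
    rw [setLIntegral_const, Real.volume_Ioc]
    exact ENNReal.mul_lt_top ENNReal.ofReal_lt_top ENNReal.ofReal_lt_top
  unfold BKMFinite
  rw [← Ioc_union_Ioo_eq_Ioo hs.1.le hs.2]
  exact (lintegral_union_le _ _ _).trans_lt (ENNReal.add_lt_top.2 ⟨hfin1, hfin2⟩)

/-- The two point criterion. -/
theorem two_point (h : IsC2Solution T u p) (hG : IsField T G) {s Λ : ℝ} {a δ : ℝ → ℝ}
    (hs : s ∈ Ioo 0 T) (ha : ∀ t ∈ Ioo s T, 0 < a t ∧ a t ≤ 1) (hδ : ∀ t ∈ Ioo s T, 0 ≤ δ t)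
    (hint : ∀ b < T, IntegrableOn (fun t => δ t / a t) (Ioo s b))
    (hyp : ∀ᵐ t, t ∈ Ioo s T → ∃ x y, Visible u G t (a t) Λ x ∧
      SlowAt u G t (δ t * nrm (vort (u t) x)) y) :
    (∃ C : ℝ, (∀ t ∈ Ico s T, ∀ x, nr (obs u G t x) ≤ C * Real.exp (∫ r in s..t, δ r / a r)) ∧
      ∀ᵐ t, t ∈ Ioo s T → ∀ x,
        nrm (vort (u t) x) ≤ C * (Real.exp (∫ r in s..t, δ r / a r) / a t)) ∧
    (∫⁻ t in Ioo s T, ENNReal.ofReal (Real.exp (∫ r in s..t, δ r / a r) / a t) < ∞ →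
      BKMFinite T u) := by
  set K : ℝ := max Λ 1 with hKdef
  have hK : 0 < K := lt_of_lt_of_le one_pos (le_max_right _ _)
  have hΛK : Λ ≤ K := le_max_left _ _
  set C : ℝ := Ymax u G s + K with hC
  have hY : ∀ t ∈ Ico s T, Ymax u G t + K ≤ C * Real.exp (∫ r in s..t, δ r / a r) := by
    intro b hb
    refine two_point_bound h hG (g := fun t => δ t / a t) hs.1 hb.1 hb.2 hK (hint b hb.2)
      (fun t ht => ?_) ?_
    · have htT : t ∈ Ioo s T := ⟨ht.1, ht.2.trans hb.2⟩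
      exact div_nonneg (hδ t htT) (ha t htT).1.le
    · filter_upwards [hyp] with t ht htI
      have htT : t ∈ Ioo s T := ⟨htI.1, htI.2.trans hb.2⟩
      obtain ⟨x, y, hx, hy⟩ := ht htT
      refine ⟨y, hy.1, hy.2.trans ?_⟩
      have h1 := visible_le h hG ⟨hs.1.trans htT.1, htT.2⟩ (ha t htT).1 (ha t htT).2 hK.le hΛK hx
      have h2 := hδ t htT
      have h3 := nr_nonneg (obs u G t y)
      calc δ t * nrm (vort (u t) x) * nr (obs u G t y)
          ≤ δ t * ((Ymax u G t + K) / a t) * nr (obs u G t y) := by gcongr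
        _ = δ t / a t * (Ymax u G t + K) * nr (obs u G t y) := by ring
  have hae : ∀ᵐ t, t ∈ Ioo s T → ∀ x,
      nrm (vort (u t) x) ≤ C * (Real.exp (∫ r in s..t, δ r / a r) / a t) := by
    filter_upwards [hyp] with t ht htI z
    obtain ⟨x, y, hx, hy⟩ := ht htI
    have h1 := visible_le h hG ⟨hs.1.trans htI.1, htI.2⟩ (ha t htI).1 (ha t htI).2 hK.le hΛK hx
    have h2 := hY t ⟨htI.1.le, htI.2⟩
    have h3 := (ha t htI).1
    calc nrm (vort (u t) z) ≤ nrm (vort (u t) x) := hx.1 z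
      _ ≤ (Ymax u G t + K) / a t := h1
      _ ≤ C * Real.exp (∫ r in s..t, δ r / a r) / a t := by gcongr
      _ = _ := by ring
  refine ⟨⟨C, fun t ht x => ?_, hae⟩, fun hfin => ?_⟩
  · have h1 := le_Ymax h hG ⟨hs.1.trans_le ht.1, ht.2⟩ x
    have h2 := hY t ht
    linarith
  · refine bkm_of_ae h.sol hs (B := fun t => C * (Real.exp (∫ r in s..t, δ r / a r) / a t)) ?_ hae
    have hC0 : 0 ≤ C := add_nonneg (Ymax_nonneg _) hK.le
    have : ∫⁻ t in Ioo s T, ENNReal.ofReal (C * (Real.exp (∫ r in s..t, δ r / a r) / a t))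
        = ENNReal.ofReal C
          * ∫⁻ t in Ioo s T, ENNReal.ofReal (Real.exp (∫ r in s..t, δ r / a r) / a t) := by
      rw [← lintegral_const_mul' _ _ ENNReal.ofReal_ne_top]
      exact lintegral_congr fun t => ENNReal.ofReal_mul hC0
    rw [this]
    exact ENNReal.mul_lt_top ENNReal.ofReal_lt_top hfin

end Pool.Agent.Helper29.Vis
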